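import Mathlib
import Pool.Agent.Zk95.TD.Base
import Pool.Agent.Zk12.Final9

/-!
# From sections to the abstract setting
-/

set_option autoImplicit false
set_option linter.all false

open Polynomial FF Pool.Agent.Y157.PS IsDedekindDomain NumberField Pool.Agent.TH954

namespace Pool.Agent.Zk94.PT

open Pool.Agent.Y158.GR Pool.Agent.Zk12 Pool.Agent.Zk12.TR Pool.Agent.Y158.FQ Pool.Agent.Zk95.TD

attribute [-instance] DivisionRing.toRatAlgebra SubfieldClass.instSMulRat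
attribute [local instance 1] DivisionRing.toRatAlgebra

section

variable {F Ω : Type} [Field F] [Field Ω] [Algebra ℚ F] [Algebra F Ω] [Algebra ℚ Ω]
  [IsScalarTower ℚ F Ω] [IsAlgClosed Ω] [Algebra.IsAlgebraic F Ω]

theorem absB {d : ℚ} (hd0 : d ≠ 0) (x y : F)
    (hx : Transcendental ℚ x)
    (hF : IntermediateField.adjoin ℚ {x, y} = (⊤ : IntermediateField ℚ F))
    (hxy : algebraMap ℚ F d * y ^ 2 = x * (x - 6) * (x - 10) * (x - 15) * (x - 30) * (x + 30))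
    (s : GalSection ℚ F (geomPro 2 ℚ F Ω) (algebraicClosure ℚ Ω))
    (hj : ∀ z, ((s.j z : geomPro 2 ℚ F Ω) : Ω) = (z : Ω)) :
    ∃ (δ : algebraicClosure ℚ Ω) (R M : Type) (_ : Field R) (_ : Field M)
      (_ : Algebra (algebraicClosure ℚ Ω) R)
      (_ : Algebra R M) (_ : Algebra (algebraicClosure ℚ Ω) M)
      (_ : IsScalarTower (algebraicClosure ℚ Ω) R M) (x' : R) (Y : M)
      (eqv : M ≃+* geomPro 2 ℚ F Ω)
      (S : (algebraicClosure ℚ Ω ≃ₐ[ℚ] algebraicClosure ℚ Ω) →* RingAut M),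
      δ ^ 2 = algebraMap ℚ _ (30 ^ 5 * (d / 30 ^ 5)) ∧
      Cov 2 (algebraicClosure ℚ Ω) R M x' (BK (algebraicClosure ℚ Ω)) Y ∧
      Sec ℚ (algebraicClosure ℚ Ω) R M x' Y δ S ∧
      (∀ c : algebraicClosure ℚ Ω, ((eqv (algebraMap (algebraicClosure ℚ Ω) M c) :
        geomPro 2 ℚ F Ω) : Ω) = (c : Ω)) ∧
      ((eqv (algebraMap R M x') : geomPro 2 ℚ F Ω) : Ω) = algebraMap F Ω x ∧
      ∀ σ z, eqv (S σ z) = s.s σ (eqv z) := by
  classical
  have hac : IsAlgClosure ℚ (algebraicClosure ℚ Ω) := inferInstance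
  have hkb : IsAlgClosed (algebraicClosure ℚ Ω) := hac.1
  have hch : CharZero (algebraicClosure ℚ Ω) :=
    charZero_of_injective_algebraMap (algebraMap ℚ (algebraicClosure ℚ Ω)).injective
  haveI : CharZero F := charZero_of_injective_algebraMap (algebraMap ℚ F).injective
  haveI : CharZero Ω := charZero_of_injective_algebraMap (algebraMap ℚ Ω).injective
  have hkalg : Algebra.IsAlgebraic ℚ (algebraicClosure ℚ Ω) := inferInstance
  haveI hnor : Normal ℚ (algebraicClosure ℚ Ω) := IsAlgClosure.normal ℚ _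
  obtain ⟨δ, R, M, i1, i2, i3, i4, i5, i6, x', Y, eqv, hδ0, hδ, hC, hc, hx', hy'⟩ :=
    setupT (Ω := Ω) hd0 x y hx hF hxy
  have hcompat := compat_of s hj
  have hSec := sec_of hδ0 hc hx' hy' s.s s.cont hcompat
  exact ⟨δ, R, M, i1, i2, i3, i4, i5, i6, x', Y, eqv, conjSec eqv s.s, hδ, hC, hSec, hc, hx',
    fun σ z => conjSec_apply eqv s.s σ z⟩

end

section

variable {F Ω B : Type} [Field F] [Field Ω] [Field B] [Algebra ℚ F] [Algebra F Ω] [Algebra ℚ Ω]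
  [Algebra ℚ B] [IsScalarTower ℚ F Ω] [IsAlgClosed Ω] [Algebra.IsAlgebraic F Ω]
  [IsAlgClosure ℚ B]

theorem absT {d : ℚ} (hd0 : d ≠ 0) (x y : F)
    (hx : Transcendental ℚ x) (hFx : Algebra.IsAlgebraic (IntermediateField.adjoin ℚ {x}) F)
    (hxy : algebraMap ℚ F d * y ^ 2 = x * (x - 6) * (x - 10) * (x - 15) * (x - 30) * (x + 30))
    (N : IntermediateField F Ω)
    (hN : ∀ z ∈ geomPro 2 ℚ (IntermediateField.adjoin ℚ {x, y}) Ω, z ∈ N)
    (s : GalSection ℚ F N B) :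
    ∃ (κ R M : Type) (_ : Field κ) (_ : Algebra ℚ κ) (_ : IsAlgClosure ℚ κ) (_ : Field R)
      (_ : Field M) (_ : Algebra κ R) (_ : Algebra R M) (_ : Algebra κ M)
      (_ : IsScalarTower κ R M) (x' : R) (Y : M) (δ : κ) (S : (κ ≃ₐ[ℚ] κ) →* RingAut M)
      (i : M →+* N),
      δ ^ 2 = algebraMap ℚ κ (30 ^ 5 * (d / 30 ^ 5)) ∧ Cov 2 κ R M x' (BK κ) Y ∧
      Sec ℚ κ R M x' Y δ S ∧ (∀ q : ℚ, i (algebraMap κ M (algebraMap ℚ κ q)) = algebraMap ℚ N q) ∧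
      i (algebraMap R M x') = algebraMap F N x ∧ ∀ σ, ∃ g, ∀ z, i (S σ z) = s.s g (i z) := by
  obtain ⟨F₀, hF₀⟩ : ∃ F₀ : IntermediateField ℚ F,
    F₀ = IntermediateField.adjoin ℚ {x, y} := ⟨_, rfl⟩
  have hxm : x ∈ F₀ := by
    rw [hF₀]; exact IntermediateField.subset_adjoin ℚ _ (by simp)
  have hym : y ∈ F₀ := by
    rw [hF₀]; exact IntermediateField.subset_adjoin ℚ _ (by simp)
  rw [← hF₀] at hN
  haveI hFF : Algebra.IsAlgebraic F₀ F :=
    alg_sub hFx F₀ one_ne_zero (by rw [pow_one]; exact hxm)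
  haveI hFΩ : Algebra.IsAlgebraic F₀ Ω := Algebra.IsAlgebraic.trans F₀ F Ω
  have htop : IntermediateField.adjoin ℚ {(⟨x, hxm⟩ : F₀), ⟨y, hym⟩} =
      (⊤ : IntermediateField ℚ F₀) := by
    apply IntermediateField.map_injective F₀.val
    rw [IntermediateField.adjoin_map, Set.image_pair, ← AlgHom.fieldRange_eq_map,
      IntermediateField.fieldRange_val]
    exact hF₀.symm
  have hx0 : Transcendental ℚ (⟨x, hxm⟩ : F₀) := by
    rw [← transcendental_algebraMap_iff (R := ℚ) (A := F) (algebraMap F₀ F).injective]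
    exact hx
  have hxy0 : algebraMap ℚ F₀ d * (⟨y, hym⟩ : F₀) ^ 2 =
      (⟨x, hxm⟩ : F₀) * ((⟨x, hxm⟩ : F₀) - 6) * ((⟨x, hxm⟩ : F₀) - 10) *
        ((⟨x, hxm⟩ : F₀) - 15) * ((⟨x, hxm⟩ : F₀) - 30) * ((⟨x, hxm⟩ : F₀) + 30) := by
    apply Subtype.ext
    exact hxy
  have halg : Algebra.IsAlgebraic (IntermediateField.adjoin ℚ {(⟨x, hxm⟩ : F₀)}) F₀ :=
    alg_of_eqn (k := ℚ) two_pos (X * (X - 6) * (X - 10) * (X - 15) * (X - 30) * (X + 30)) d hd0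
      (⟨x, hxm⟩ : F₀) ⟨y, hym⟩ (by
      simp only [map_mul, map_sub, map_add, aeval_X, map_ofNat]
      exact hxy0) htop
  haveI : IsAlgClosure F₀ Ω := ⟨inferInstance, inferInstance⟩
  obtain ⟨-, hst⟩ := a_inrt 2 ℚ F₀ Ω (⟨x, hxm⟩ : F₀) hx0 halg
  -- the restriction
  obtain ⟨Φ, hΦc, hΦ⟩ := Pool.Agent.Y674.PS.restr' (F₀ := F₀) (Ω₀ := Ω) (F := F) (Ω := Ω)
    (algebraMap F₀ F) (RingHom.id Ω) (fun a => rfl) (geomPro 2 ℚ F₀ Ω) N hN (fun σ z hz =>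
      ⟨σ z, hst (σ.restrictScalars F₀) z hz, rfl⟩)
  have hΦ' : ∀ (e : N ≃ₐ[F] N) (z : N) (w : geomPro 2 ℚ F₀ Ω), (w : Ω) = (z : Ω) →
      ((Φ e w : geomPro 2 ℚ F₀ Ω) : Ω) = ((e z : N) : Ω) := hΦ
  -- the algebraic closures
  haveI : IsScalarTower ℚ N Ω := IsScalarTower.of_algebraMap_eq fun _ => rfl
  obtain ⟨eB, heB⟩ := exists_eB (Ω := Ω) ((IsScalarTower.toAlgHom ℚ N Ω).comp s.j)
  have heB' : ∀ b, ((s.j b : N) : Ω) = ((eB b : algebraicClosure ℚ Ω) : Ω) := fun b => (heB b).symm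
  let j₀ : algebraicClosure ℚ Ω →ₐ[ℚ] geomPro 2 ℚ F₀ Ω :=
    { toFun := fun z => ⟨(z : Ω), const_geomPro 2 ℚ z⟩
      map_one' := rfl
      map_mul' := fun _ _ => rfl
      map_zero' := rfl
      map_add' := fun _ _ => rfl
      commutes' := fun c => rfl }
  have hj₀ : ∀ z, ((j₀ z : geomPro 2 ℚ F₀ Ω) : Ω) = (z : Ω) := fun z => rfl
  let s₀ : GalSection ℚ F₀ (geomPro 2 ℚ F₀ Ω) (algebraicClosure ℚ Ω) :=
    { j := j₀
      s := (Φ.comp s.s).comp (AlgEquiv.autCongr eB.symm : _ →* _)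
      cont := (hΦc.comp s.cont).comp (Pool.Agent.Y674.PS.conj_cont eB.symm)
      sec := by
        intro σ z
        apply Subtype.ext
        have h1 := hΦ' (s.s (AlgEquiv.autCongr eB.symm σ)) (s.j (eB.symm z)) (j₀ z) (by
          rw [heB', eB.apply_symm_apply, hj₀])
        have h2 : (AlgEquiv.autCongr eB.symm σ) (eB.symm z) = eB.symm (σ z) := by
          change eB.symm (σ (eB (eB.symm z))) = _
          rw [eB.apply_symm_apply]
        rw [s.sec, h2, heB', eB.apply_symm_apply] at h1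
        exact h1 }
  have hs₀ : ∀ σ (z : N) (w : geomPro 2 ℚ F₀ Ω), (w : Ω) = (z : Ω) →
      ((s₀.s σ w : geomPro 2 ℚ F₀ Ω) : Ω) =
        ((s.s (AlgEquiv.autCongr eB.symm σ) z : N) : Ω) := fun σ z w h => hΦ' _ z w h
  let i : geomPro 2 ℚ F₀ Ω →+* N :=
    { toFun := fun w => ⟨(w : Ω), hN _ w.2⟩
      map_one' := rfl
      map_mul' := fun _ _ => rfl
      map_zero' := rfl
      map_add' := fun _ _ => rfl }
  have hi : ∀ w, ((i w : N) : Ω) = (w : Ω) := fun w => rfl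
  have his : ∀ σ w, i (s₀.s σ w) = s.s (AlgEquiv.autCongr eB.symm σ) (i w) := fun σ w =>
    Subtype.ext (hs₀ σ (i w) w rfl)
  have hac : IsAlgClosure ℚ (algebraicClosure ℚ Ω) := inferInstance
  obtain ⟨δ, R, M, i1, i2, i3, i4, i5, i6, x', Y, eqv, S, hδ, hC, hSec, hc, hx', hS⟩ :=
    absB (Ω := Ω) hd0 _ _ hx0 htop hxy0 s₀ hj₀
  refine ⟨algebraicClosure ℚ Ω, R, M, inferInstance, inferInstance, hac, i1, i2, i3, i4, i5, i6,
    x', Y, δ, S, i.comp (eqv : M →+* geomPro 2 ℚ F₀ Ω), hδ, hC, hSec, fun q => ?_, ?_,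
    fun σ => ⟨AlgEquiv.autCongr eB.symm σ, fun z => ?_⟩⟩
  · apply Subtype.ext
    change ((eqv (algebraMap (algebraicClosure ℚ Ω) M (algebraMap ℚ (algebraicClosure ℚ Ω) q)) :
        geomPro 2 ℚ F₀ Ω) : Ω) = _
    rw [hc]
    rfl
  · apply Subtype.ext
    exact hx'
  · change i (eqv (S σ z)) = s.s (AlgEquiv.autCongr eB.symm σ) (i (eqv z))
    rw [hS, his]

end

end Pool.Agent.Zk94.PT
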