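import Mathlib
import Pool.Agent.Zk12.Good2
import Pool.Agent.Zk47.TR.Typ
import Pool.Agent.Y158.GR.Prb
import Pool.Agent.Y248.PS.GunA

/-!
# The square classes at the places of good reduction
-/

set_option autoImplicit false
set_option linter.all false

open Polynomial FF Pool.Agent.Y157.PS IsDedekindDomain NumberField

namespace Pool.Agent.Zk94.PT

open Pool.Agent.Y158.GR Pool.Agent.Zk12 Pool.Agent.Zk12.TR

section

variable {κ R M : Type} [Field κ] [Algebra ℚ κ] [IsAlgClosure ℚ κ] [Field R] [Field M]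
  [Algebra κ R] [Algebra R M] [Algebra κ M] [IsScalarTower κ R M] {x : R} {Y : M}

/-- the value at a branch point `e` of a function `γ` fixed by the section with
`c γ² = (x - l) (x - l')`, at a good place -/
theorem good_even (hC : Cov 2 κ R M x (BK κ) Y) {a : ℚ} {δ : κ}
    (hδ : δ ^ 2 = algebraMap ℚ κ (30 ^ 5 * a)) {S : (κ ≃ₐ[ℚ] κ) →* RingAut M}
    (hs : Sec ℚ κ R M x Y δ S) {v : HeightOneSpectrum (𝓞 ℚ)} (hv : v.valuation ℚ 6 = 1)
    (ha : v.valuation ℚ a = 1) {e l l' c : ℚ} (he : e ∈ BQ) (hle : l ≠ e) (hle' : l' ≠ e)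
    (hc : c ≠ 0) {γ : M} (hγ : ∀ σ, S σ γ = γ)
    (hγ2 : algebraMap κ M (algebraMap ℚ κ c) * γ ^ 2 =
      (algebraMap R M x - algebraMap κ M (algebraMap ℚ κ l)) *
        (algebraMap R M x - algebraMap κ M (algebraMap ℚ κ l'))) :
    ∃ t : ℚ, v.valuation ℚ (c * ((e - l) * (e - l'))) = v.valuation ℚ t ^ 2 := by
  haveI : IsAlgClosed κ := IsAlgClosure.isAlgClosed ℚ
  haveI : Algebra.IsAlgebraic ℚ κ := IsAlgClosure.isAlgebraic
  haveI : CharZero κ := charZero_of_injective_algebraMap (algebraMap ℚ κ).injective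
  obtain ⟨V, hV, -, hcomm, hrot⟩ := good_all hC hδ hs hv ha
  have heK : algebraMap ℚ κ e ∈ BK κ := mem_BK.2 ⟨e, he, rfl⟩
  obtain ⟨W, hW⟩ := Pool.Agent.Y248.PS.exists_place hC (algebraMap ℚ κ e)
  obtain ⟨cc, hccW, hccY⟩ := hrot W _ heK hW
  have hI : ∀ τ : κ ≃ₐ[ℚ] κ, Ine V τ → Fixes W (S τ) := fun τ hτ =>
    fixes_of_comm hC (Act.of_sec hs) W heK hW hccW hccY (hcomm cc τ hτ)
  have hO : ∀ q : κ, algebraMap κ M q ∈ W.O := fun q => W.reg_const q
  set X := algebraMap R M x with hX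
  let ι : ℚ →+* M := (algebraMap κ M).comp (algebraMap ℚ κ)
  have hι : ∀ q : ℚ, ι q = algebraMap κ M (algebraMap ℚ κ q) := fun q => rfl
  simp only [← hι] at hγ2 hW
  have hW0 : X - ι e ≠ 0 := by
    intro h
    rw [h, W.ord_zero] at hW
    exact lt_irrefl _ hW
  have hem : X - ι e ∈ W.O.nonunits := (O_non_iff W hW0).2 hW
  have hιc : ι c ≠ 0 := (_root_.map_ne_zero ι).2 hc
  set w' : ℚ := (e - l) * (e - l') / c with hw'
  have hw'0 : w' ≠ 0 := div_ne_zero (mul_ne_zero (sub_ne_zero.2 (Ne.symm hle))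
    (sub_ne_zero.2 (Ne.symm hle'))) hc
  obtain ⟨w₀, hw₀⟩ := IsAlgClosed.exists_pow_nat_eq (algebraMap ℚ κ w') (n := 2) two_pos
  obtain ⟨w, hw, hγw⟩ := Pool.Agent.Zk47.TR.typ_res W.O (u := γ) (w := w₀) (by
    rw [← map_pow, hw₀]
    have h1 : γ ^ 2 - ι w' = ι c⁻¹ * ((X - ι e) * ((X - ι e) + ι (e - l) + ι (e - l'))) := by
      have h2 : γ ^ 2 = ι c⁻¹ * ((X - ι l) * (X - ι l')) := by
        rw [← hγ2, map_inv₀, inv_mul_cancel_left₀ hιc]
      rw [h2, hw', map_div₀, map_mul, map_sub, map_sub, map_inv₀, div_eq_inv_mul]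
      ring
    change γ ^ 2 - ι w' ∈ W.O.nonunits
    rw [h1]
    refine non_mul (hO _) ?_
    rw [mul_comm]
    exact non_mul (add_mem (add_mem (non_mem hem) (hO _)) (hO _)) hem)
  rw [hw₀] at hw
  have hw0 : w ≠ 0 := by
    rintro rfl
    rw [zero_pow two_ne_zero] at hw
    have h5 := hw.symm
    rw [_root_.map_eq_zero] at h5
    exact hw'0 h5
  have hfix : ∀ τ : κ ≃ₐ[ℚ] κ, Ine V τ → τ w = w := by
    intro τ hτ
    have h1 : S τ (γ - algebraMap κ M w) ∈ W.O.nonunits := by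
      by_cases h0 : γ - algebraMap κ M w = 0
      · rw [h0, map_zero]
        exact nonunits_iff.2 ⟨zero_mem _, Or.inl rfl⟩
      · rw [O_non_iff W ((map_ne_zero_iff _ (S τ).injective).2 h0), hI τ hτ]
        exact (O_non_iff W h0).1 hγw
    rw [map_sub, hγ, hs.const] at h1
    have h3 := non_sub hγw h1
    have h4 : (γ - algebraMap κ M w) - (γ - algebraMap κ M (τ w)) = algebraMap κ M (τ w - w) := by
      rw [map_sub]
      ring
    rw [h4] at h3
    by_contra h6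
    refine (IsU.not_nonunit (V := W.O) ⟨(_root_.map_ne_zero _).2 (sub_ne_zero.2 h6), hO _, ?_⟩) h3
    rw [← map_inv₀]
    exact hO _
  have h2v : ((2 : ℕ) : 𝓞 ℚ) ∉ v.asIdeal := by
    rw [← v.intValuation_eq_one_iff]
    have h3 : v.valuation ℚ (algebraMap (𝓞 ℚ) ℚ ((2 : ℕ) : 𝓞 ℚ)) = 1 := by
      rw [_root_.map_natCast]
      exact_mod_cast (v_23 hv).1
    rwa [v.valuation_of_algebraMap] at h3
  obtain ⟨t, ht⟩ := hV.pow h2v hw0 hfix (a := w') hw.symm
  refine ⟨c * t, ?_⟩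
  rw [_root_.map_mul (v.valuation ℚ) c t, mul_pow, ← ht, ← _root_.map_pow, ← _root_.map_mul]
  congr 1
  rw [hw']
  field_simp

end

end Pool.Agent.Zk94.PT
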