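import Mathlib
import Pool.Agent.Zk94.PT.Abs
import Pool.Agent.Zk94.PT.Five

/-!
# The square classes at the places of good reduction, for sections
-/

set_option autoImplicit false
set_option linter.all false

open Polynomial FF Pool.Agent.Y157.PS IsDedekindDomain NumberField Pool.Agent.TH954

namespace Pool.Agent.Zk94.PT

open Pool.Agent.Y158.GR Pool.Agent.Zk12 Pool.Agent.Zk12.TR Pool.Agent.Y158.FQ Pool.Agent.Zk95.TD

section

variable {κ R M : Type} [Field κ] [Algebra ℚ κ] [IsAlgClosure ℚ κ] [Field R] [Field M]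
  [Algebra κ R] [Algebra R M] [Algebra κ M] [IsScalarTower κ R M] {x : R} {Y : M}

theorem root_ex (hC : Cov 2 κ R M x (BK κ) Y) {l l' c : κ} (hl : l ∈ BK κ) (hl' : l' ∈ BK κ)
    (hc0 : c ≠ 0) : ∃ h : M, h ^ 2 = (algebraMap R M x - algebraMap κ M l) *
      (algebraMap R M x - algebraMap κ M l') * algebraMap κ M c := by
  have htr : Transcendental κ (algebraMap R M x) :=
    (transcendental_algebraMap_iff (algebraMap R M).injective).2 hC.rat.trans
  have hXc : ∀ c : κ, algebraMap R M x - algebraMap κ M c ≠ 0 := by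
    intro c h0
    apply htr
    rw [sub_eq_zero.1 h0]
    exact isAlgebraic_algebraMap _
  have hcM : algebraMap κ M c ≠ 0 := (_root_.map_ne_zero _).2 hc0
  have hev : ∀ (W : Place κ M), ∃ n : ℤ,
      ∀ b ∈ BK κ, (2 : ℤ) ∣ W.ord (algebraMap R M x - algebraMap κ M b) - n := by
    intro W
    rcases hC.loc' W with ⟨e, he, h1, h2⟩ | ⟨a, ha, h1⟩ | h1
    · refine ⟨0, fun b hb => ?_⟩
      by_cases heb : e = b
      · rw [← heb, h1]; norm_num
      · rw [ord_sub_const (by rw [h1]; norm_num) heb]; norm_num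
    · refine ⟨0, fun b hb => ?_⟩
      have hab : a ≠ b := fun h => ha (by rw [h]; exact hb)
      rw [ord_sub_const (by rw [h1]; norm_num) hab]; norm_num
    · refine ⟨-1, fun b hb => ?_⟩
      have hx'0 : algebraMap R M x ≠ 0 := by
        intro h0
        rw [h0, W.ord_zero] at h1
        norm_num at h1
      have h3 : W.ord (algebraMap R M x - algebraMap κ M b) = -1 := by
        by_cases hb0 : b = 0
        · rw [hb0, map_zero, sub_zero, h1]
        · rw [sub_eq_add_neg, ← map_neg, (W.ord_add_eq hx'0 ((_root_.map_ne_zero _).2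
            (neg_ne_zero.2 hb0)) (by rw [h1, W.ord_const (neg_ne_zero.2 hb0)]; norm_num)).2,
            h1]
      rw [h3]; norm_num
  obtain ⟨g, hg⟩ : ∃ g : M, g = (algebraMap R M x - algebraMap κ M l) *
      (algebraMap R M x - algebraMap κ M l') * algebraMap κ M c := ⟨_, rfl⟩
  have hg0 : g ≠ 0 := by
    rw [hg]
    exact mul_ne_zero (mul_ne_zero (hXc _) (hXc _)) hcM
  obtain ⟨h, hh⟩ := hC.root g hg0 (fun W => by
    obtain ⟨n, hn⟩ := hev W
    have h1 := hn _ hl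
    have h2 := hn _ hl'
    rw [hg, W.ord_mul (mul_ne_zero (hXc _) (hXc _)) hcM, W.ord_mul (hXc _) (hXc _),
      W.ord_const hc0]
    push_cast
    omega)
  exact ⟨h, by rw [hh, hg]⟩

end

attribute [-instance] DivisionRing.toRatAlgebra SubfieldClass.instSMulRat
attribute [local instance 1] DivisionRing.toRatAlgebra

section

variable {F Ω B : Type} [Field F] [Field Ω] [Field B] [Algebra ℚ F] [Algebra F Ω] [Algebra ℚ Ω]
  [Algebra ℚ B] [IsScalarTower ℚ F Ω] [IsAlgClosed Ω] [Algebra.IsAlgebraic F Ω]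
  [IsAlgClosure ℚ B]

theorem gen_even {d : ℚ} (hd0 : d ≠ 0) (x y : F)
    (hx : Transcendental ℚ x) (hFx : Algebra.IsAlgebraic (IntermediateField.adjoin ℚ {x}) F)
    (hxy : algebraMap ℚ F d * y ^ 2 = x * (x - 6) * (x - 10) * (x - 15) * (x - 30) * (x + 30))
    (N : IntermediateField F Ω)
    (hN : ∀ z ∈ geomPro 2 ℚ (IntermediateField.adjoin ℚ {x, y}) Ω, z ∈ N)
    (s : GalSection ℚ F N B) {v : HeightOneSpectrum (𝓞 ℚ)} (hv : v.valuation ℚ 6 = 1)
    (ha : v.valuation ℚ (d / 30 ^ 5) = 1) {e l l' c : ℚ} (he : e ∈ BQ) (hl : l ∈ BQ)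
    (hl' : l' ∈ BQ) (hle : l ≠ e) (hle' : l' ≠ e) (hc : c ≠ 0) {h : N}
    (hfix : ∀ g, s.s g h = h)
    (hh : algebraMap ℚ N c * h ^ 2 =
      algebraMap F N ((x - algebraMap ℚ F l) * (x - algebraMap ℚ F l'))) :
    ∃ t : ℚ, v.valuation ℚ (c * ((e - l) * (e - l'))) = v.valuation ℚ t ^ 2 := by
  obtain ⟨κ, R, M, _, _, _, _, _, _, _, _, _, x', Y, δ, S, i, hδ, hC, hS, hiq, hix, hSs⟩ :=
    absT hd0 x y hx hFx hxy N hN s
  have hcN : algebraMap ℚ N c ≠ 0 := (_root_.map_ne_zero _).2 hc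
  obtain ⟨γ, hγ⟩ := root_ex hC (l := algebraMap ℚ κ l) (l' := algebraMap ℚ κ l')
    (c := algebraMap ℚ κ c⁻¹) (mem_BK.2 ⟨l, hl, rfl⟩) (mem_BK.2 ⟨l', hl', rfl⟩)
    ((_root_.map_ne_zero _).2 (inv_ne_zero hc))
  have hiγ : (i γ) ^ 2 = h ^ 2 := by
    apply mul_left_cancel₀ hcN
    have hxq : ∀ q : ℚ, algebraMap F N (x - algebraMap ℚ F q) =
        algebraMap F N x - algebraMap ℚ N q := by
      intro q
      rw [map_sub, ← IsScalarTower.algebraMap_apply]
    rw [hh, ← map_pow, hγ, map_mul, map_mul, map_sub, map_sub, hix, hiq, hiq, hiq, map_mul, hxq,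
      hxq, map_inv₀]
    field_simp
  have hγfix : ∀ σ, S σ γ = γ := by
    intro σ
    apply i.injective
    obtain ⟨g, hg⟩ := hSs σ
    rw [hg]
    rcases sq_eq_sq_iff_eq_or_eq_neg.1 hiγ with h7 | h7
    · rw [h7, hfix]
    · rw [h7, map_neg, hfix]
  refine good_even hC hδ hS hv ha he hle hle' hc hγfix ?_
  have hcκ : algebraMap ℚ κ c ≠ 0 := (_root_.map_ne_zero _).2 hc
  have hcM : algebraMap κ M (algebraMap ℚ κ c) ≠ 0 := (_root_.map_ne_zero _).2 hcκ
  rw [hγ, map_inv₀, map_inv₀]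
  field_simp

end

end Pool.Agent.Zk94.PT
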