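import Mathlib

/-!
# Arithmetic at the prime 2 for the branch points `0, 6, 10, 15, 30, -30`
-/

set_option autoImplicit false
set_option linter.all false

namespace Pool.Agent.Zk94.PT

open Polynomial

/-- the branch points -/
def bp : Fin 6 → ℤ := ![0, 6, 10, 15, 30, -30]

/-- `n` is a square in `ℚ₂` (if `0 < |n| < 4 ^ k`) -/
def isq : ℕ → ℤ → Bool
  | 0, _ => false
  | (k + 1), n => if n % 4 = 0 then isq k (n / 4) else decide (n % 8 = 1)

theorem isq_of (k : ℕ) : ∀ n : ℤ, n ≠ 0 → n.natAbs < 4 ^ k → IsSquare (n : ℚ_[2]) →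
    isq k n = true := by
  induction k with
  | zero =>
    intro n hn hk
    simp at hk
    exact absurd hk hn
  | succ k ih =>
    intro n hn hk hsq
    unfold isq
    split_ifs with h4
    · obtain ⟨m, rfl⟩ : ∃ m, n = 4 * m := ⟨n / 4, by omega⟩
      have e : 4 * m / 4 = m := by omega
      rw [e]
      refine ih m (by rintro rfl; simp at hn) (by rw [pow_succ] at hk; omega) ?_
      obtain ⟨z, hz⟩ := hsq
      refine ⟨z / 2, ?_⟩
      push_cast at hz
      have h2 : (2 : ℚ_[2]) ≠ 0 := two_ne_zero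
      field_simp
      linear_combination hz
    · rw [decide_eq_true_eq]
      obtain ⟨z, hz⟩ := hsq
      have hzn : ‖z‖ ≤ 1 := by
        have h1 : ‖(n : ℚ_[2])‖ ≤ 1 := Padic.norm_int_le_one n
        rw [hz, norm_mul] at h1
        nlinarith [norm_nonneg z]
      obtain ⟨w, hw⟩ : ∃ w : ℤ_[2], (w : ℚ_[2]) = z := ⟨⟨z, hzn⟩, rfl⟩
      have h1 : (n : ℤ_[2]) = w * w := by
        apply Subtype.coe_injective
        push_cast
        rw [hw]
        exact hz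
      have h2 := congrArg (PadicInt.toZModPow (p := 2) 3) h1
      rw [map_intCast, map_mul] at h2
      generalize (PadicInt.toZModPow (p := 2) 3) w = v at h2
      have h3 : ((n : ℤ) : ZMod 8) = v * v := h2
      have h5 : ∀ v : ZMod 8, v * v = 0 ∨ v * v = 1 ∨ v * v = 4 := by decide
      have key : ∀ m : ℤ, ((n : ℤ) : ZMod 8) = ((m : ℤ) : ZMod 8) → n % 8 = m % 8 := by
        intro m hm
        exact (ZMod.intCast_eq_intCast_iff n m 8).1 hm
      rcases h5 v with h6 | h6 | h6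
      · have := key 0 (by rw [h3, h6]; rfl)
        omega
      · have := key 1 (by rw [h3, h6]; rfl)
        omega
      · have := key 4 (by rw [h3, h6]; rfl)
        omega

theorem sq_one_add (w : ℤ_[2]) : ∃ z : ℤ_[2], 1 + 8 * w = z ^ 2 := by
  obtain ⟨z, hz, -⟩ := hensels_lemma (p := 2) (R := ℤ_[2]) (F := X ^ 2 - C (1 + 8 * w))
    (a := 1) (by
      have e1 : (aeval (1 : ℤ_[2])) (X ^ 2 - C (1 + 8 * w) : ℤ_[2][X]) = -(8 * w) := by
        simp
      have e2 : (aeval (1 : ℤ_[2])) (derivative (X ^ 2 - C (1 + 8 * w) : ℤ_[2][X])) = 2 := by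
        simp [one_add_one_eq_two]
      rw [e1, e2, norm_neg, norm_mul]
      have h2 : ‖(2 : ℤ_[2])‖ = 2⁻¹ := by
        have := PadicInt.norm_p (p := 2)
        exact_mod_cast this
      have h8 : ‖(8 : ℤ_[2])‖ = 8⁻¹ := by
        have : (8 : ℤ_[2]) = 2 ^ 3 := by norm_num
        rw [this, norm_pow, h2]; norm_num
      rw [h2, h8]
      have := PadicInt.norm_le_one w
      nlinarith [norm_nonneg w])
  refine ⟨z, ?_⟩
  have : (aeval z) (X ^ 2 - C (1 + 8 * w) : ℤ_[2][X]) = z ^ 2 - (1 + 8 * w) := by simp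
  rw [this] at hz
  exact (sub_eq_zero.1 hz).symm

/-- the integers in `ℚ₂` -/
noncomputable abbrev iz : ℤ_[2] →+* ℚ_[2] := PadicInt.Coe.ringHom

theorem iz_mk (x : ℚ_[2]) (h : ‖x‖ ≤ 1) : ∃ w : ℤ_[2], iz w = x := ⟨⟨x, h⟩, rfl⟩

theorem iz_inj : Function.Injective iz := Subtype.coe_injective

theorem norm_iz (w : ℤ_[2]) : ‖iz w‖ = ‖w‖ := rfl

theorem dvd_pow_two (a : ℕ) (n : ℤ) (h : ¬ (2 : ℤ) ^ (a + 1) ∣ n) :
    ∃ q : ℤ_[2], (2 : ℤ_[2]) ^ a = n * q := by
  have hn : n ≠ 0 := by rintro rfl; exact h (dvd_zero _)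
  have h1 : ¬ ‖(n : ℤ_[2])‖ ≤ ((2 : ℕ) : ℝ) ^ (-((a + 1 : ℕ) : ℤ)) := by
    rw [PadicInt.norm_int_le_pow_iff_dvd]
    exact_mod_cast h
  have h2 : ((2 : ℕ) : ℝ) ^ (-(a : ℤ)) ≤ ‖(n : ℤ_[2])‖ := by
    by_contra hc
    push Not at hc
    apply h1
    have h3 := (PadicInt.norm_le_pow_iff_norm_lt_pow_add_one (p := 2) (n : ℤ_[2])
      (-((a + 1 : ℕ) : ℤ))).2 (by
      have : (-((a + 1 : ℕ) : ℤ)) + 1 = -(a : ℤ) := by push_cast; ring
      rw [this]
      exact hc)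
    exact h3
  have hn' : (n : ℚ_[2]) ≠ 0 := by exact_mod_cast hn
  have h4 : ‖(2 : ℚ_[2]) ^ a / n‖ ≤ 1 := by
    rw [norm_div, div_le_one (norm_pos_iff.2 hn')]
    have e1 : ‖(2 : ℚ_[2]) ^ a‖ = ((2 : ℕ) : ℝ) ^ (-(a : ℤ)) := by
      have := Padic.norm_p_pow (p := 2) a
      exact_mod_cast this
    have e2 : ‖(n : ℚ_[2])‖ = ‖(n : ℤ_[2])‖ := by
      rw [← norm_iz, map_intCast]
    rw [e1, e2]
    exact h2
  obtain ⟨q, hq⟩ := iz_mk _ h4
  refine ⟨q, iz_inj ?_⟩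
  rw [map_mul, hq, map_pow, map_ofNat, map_intCast]
  field_simp

/-- `n + 2 ^ (a + 3) w` and `n` differ by a square -/
theorem near (a : ℕ) (n : ℤ) (h : ¬ (2 : ℤ) ^ (a + 1) ∣ n) (w : ℤ_[2]) :
    ∃ s : ℚ_[2], s ≠ 0 ∧ (n : ℚ_[2]) + 2 ^ (a + 3) * iz w = n * s ^ 2 := by
  obtain ⟨q, hq⟩ := dvd_pow_two a n h
  obtain ⟨z, hz⟩ := sq_one_add (q * w)
  refine ⟨iz z, ?_, ?_⟩
  · intro h0
    have h1 : z = 0 := iz_inj (by rw [h0, map_zero])
    rw [h1, zero_pow two_ne_zero] at hz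
    have h2 := congrArg (PadicInt.toZModPow (p := 2) 1) hz
    rw [map_add, map_mul, map_zero, map_one] at h2
    have h8 : (PadicInt.toZModPow (p := 2) 1) (8 : ℤ_[2]) = 0 := by
      rw [map_ofNat]
      decide
    rw [h8, zero_mul, add_zero] at h2
    revert h2
    decide
  · have h1 := congrArg iz hq
    have h2 := congrArg iz hz
    rw [map_pow, map_ofNat, map_mul, map_intCast] at h1
    rw [map_add, map_mul, map_mul, map_one, map_ofNat, map_pow] at h2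
    rw [← h2, pow_add, h1]
    ring

end Pool.Agent.Zk94.PT
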