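import Mathlib
import Pool.Agent.Zk94.PT.Ari0

/-!
# The finite check at the prime 2
-/

set_option autoImplicit false
set_option linter.all false

namespace Pool.Agent.Zk94.PT

/-- the pairs of values of a residue class -/
def tt (n : Fin 6 → ℤ) (i k l : Fin 6) : ℤ := (bp i - bp k) * (bp i - bp l) * (n k * n l)

/-- the check for the residue classes away from the branch points -/
def good (cs : List ℤ) (dd : ℤ) (n : Fin 6 → ℤ) : Prop :=
  isq 40 (dd * (n 0 * n 1 * n 2 * n 3 * n 4 * n 5)) = true → ∀ i : Fin 6,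
    (∀ k l : Fin 6, k ≠ i → l ≠ i → cs.any (fun c => isq 40 (c * tt n i k l)) = true) →
    ∀ k l : Fin 6, k ≠ i → l ≠ i → cs.all (fun c => isq 40 (c * tt n i k l) → c = 1) = true

instance (cs : List ℤ) (dd : ℤ) (n : Fin 6 → ℤ) : Decidable (good cs dd n) := by
  unfold good; infer_instance

def chkI (cs : List ℤ) (dd : ℤ) : Prop :=
  ∀ r : Fin 256, (∀ k : Fin 6, ¬ (64 : ℤ) ∣ ((r : ℕ) : ℤ) - bp k) →
    good cs dd (fun k => ((r : ℕ) : ℤ) - bp k)

def chkII (cs : List ℤ) : Prop :=
  ∀ i m : Fin 6, m ≠ i → ∃ k l : Fin 6, k ≠ i ∧ k ≠ m ∧ l ≠ i ∧ l ≠ m ∧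
    cs.all (fun c => !(isq 40 (c * tt (fun j => bp m - bp j) i k l))) = true

def chkIII (cs : List ℤ) (dd : ℤ) : Prop :=
  ∀ r : Fin 4, good cs dd (fun k => 1 - bp k * (2 * ((r : ℕ) : ℤ)))

instance (cs : List ℤ) (dd : ℤ) : Decidable (chkI cs dd) := by unfold chkI; infer_instance
instance (cs : List ℤ) : Decidable (chkII cs) := by unfold chkII; infer_instance
instance (cs : List ℤ) (dd : ℤ) : Decidable (chkIII cs dd) := by unfold chkIII; infer_instance

theorem c5II : chkII [1, -1, 6, -6] := by decide +kernel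
theorem c11II : chkII [1, -2, 3, -6] := by decide +kernel
theorem c7II : chkII [1, 2, -3, -6] := by decide +kernel
theorem c19II : chkII [1, -2, -3, 6] := by decide +kernel
theorem c5III : chkIII [1, -1, 6, -6] (30 * 5) := by decide +kernel
theorem c11III : chkIII [1, -2, 3, -6] (30 * 3) := by decide +kernel
theorem c7III : chkIII [1, 2, -3, -6] (15 * 7) := by decide +kernel
theorem c19III : chkIII [1, -2, -3, 6] (15 * 3) := by decide +kernel
theorem c5I : chkI [1, -1, 6, -6] (30 * 5) := by decide +kernel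
theorem c11I : chkI [1, -2, 3, -6] (30 * 3) := by decide +kernel
theorem c7I : chkI [1, 2, -3, -6] (15 * 7) := by decide +kernel
theorem c19I : chkI [1, -2, -3, 6] (15 * 3) := by decide +kernel

end Pool.Agent.Zk94.PT
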