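import Mathlib
import Pool.Agent.Zk94.PT.Ari1

/-!
# The square classes of the points over `ℚ₂`
-/

set_option autoImplicit false
set_option linter.all false

namespace Pool.Agent.Zk94.PT

/-- all conditions on the constants -/
def Chk (cs : List ℤ) (dd : ℤ) : Prop :=
  chkI cs dd ∧ chkII cs ∧ chkIII cs dd ∧ (∀ c ∈ cs, c ≠ 0 ∧ c.natAbs ≤ 6 ∧ (isq 40 c = true → c = 1)) ∧
    dd ≠ 0 ∧ dd.natAbs ≤ 200

theorem chk5 : Chk [1, -1, 6, -6] (30 * 5) := ⟨c5I, c5II, c5III, by decide, by decide, by decide⟩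
theorem chk11 : Chk [1, -2, 3, -6] (30 * 3) := ⟨c11I, c11II, c11III, by decide, by decide, by decide⟩
theorem chk7 : Chk [1, 2, -3, -6] (15 * 7) := ⟨c7I, c7II, c7III, by decide, by decide, by decide⟩
theorem chk19 : Chk [1, -2, -3, 6] (15 * 3) := ⟨c19I, c19II, c19III, by decide, by decide, by decide⟩

theorem nam {a b : ℤ} {A B : ℕ} (ha : a.natAbs ≤ A) (hb : b.natAbs ≤ B) :
    (a * b).natAbs ≤ A * B := by
  rw [Int.natAbs_mul]
  exact Nat.mul_le_mul ha hb

theorem bp_dif (i k : Fin 6) : (bp i - bp k).natAbs ≤ 60 := by revert i k; decide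

theorem bp_ne {i k : Fin 6} (h : k ≠ i) : bp i - bp k ≠ 0 := by revert i k; decide

theorem bp_16 {i k : Fin 6} (h : k ≠ i) : ¬ (2 : ℤ) ^ (3 + 1) ∣ bp i - bp k := by revert i k; decide

theorem IsSquare.of_mul_sq {K : Type} [Field K] {a s : K} (hs : s ≠ 0) (h : IsSquare (a * s ^ 2)) :
    IsSquare a := by
  obtain ⟨z, hz⟩ := h
  refine ⟨z / s, ?_⟩
  field_simp
  linear_combination hz

section

variable {cs : List ℤ} {dd : ℤ} (hchk : Chk cs dd) {i : Fin 6} {c : Fin 6 → Fin 6 → ℤ}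
  (hc : ∀ k l, k ≠ i → l ≠ i → c k l ∈ cs)

include hchk hc

theorem tt_isq {n : Fin 6 → ℤ} {k l : Fin 6} (hk : k ≠ i) (hl : l ≠ i) (hnk : n k ≠ 0)
    (hnl : n l ≠ 0) (hbk : (n k).natAbs ≤ 300) (hbl : (n l).natAbs ≤ 300)
    (h : IsSquare ((c k l * tt n i k l : ℤ) : ℚ_[2])) : isq 40 (c k l * tt n i k l) = true := by
  obtain ⟨h1, h2, h3⟩ := hchk.2.2.2.1 _ (hc k l hk hl)
  refine isq_of 40 _ (mul_ne_zero h1 ?_) ?_ h
  · unfold tt
    exact mul_ne_zero (mul_ne_zero (bp_ne hk) (bp_ne hl)) (mul_ne_zero hnk hnl)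
  · refine lt_of_le_of_lt (nam h2 (nam (nam (bp_dif i k) (bp_dif i l)) (nam hbk hbl))) ?_
    norm_num

theorem fin_good {n : Fin 6 → ℤ} (hn : ∀ k, n k ≠ 0) (hb : ∀ k, (n k).natAbs ≤ 300)
    (hg : good cs dd n) (h1 : ∀ k l, k ≠ i → l ≠ i → IsSquare ((c k l * tt n i k l : ℤ) : ℚ_[2]))
    (h2 : IsSquare ((dd * (n 0 * n 1 * n 2 * n 3 * n 4 * n 5) : ℤ) : ℚ_[2])) :
    ∀ k l, k ≠ i → l ≠ i → c k l = 1 := by
  have h3 : isq 40 (dd * (n 0 * n 1 * n 2 * n 3 * n 4 * n 5)) = true := by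
    refine isq_of 40 _ (mul_ne_zero hchk.2.2.2.2.1 ?_) ?_ h2
    · simp only [ne_eq, mul_eq_zero, hn, or_self, not_false_eq_true]
    · refine lt_of_le_of_lt (nam hchk.2.2.2.2.2 (nam (nam (nam (nam (nam (hb 0) (hb 1)) (hb 2))
        (hb 3)) (hb 4)) (hb 5))) ?_
      norm_num
  have h4 := hg h3 i (fun k l hk hl => by
    rw [List.any_eq_true]
    exact ⟨c k l, hc k l hk hl, tt_isq hchk hc hk hl (hn k) (hn l) (hb k) (hb l) (h1 k l hk hl)⟩)
  intro k l hk hl
  have h5 := h4 k l hk hl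
  rw [List.all_eq_true] at h5
  have h6 := h5 (c k l) (hc k l hk hl)
  rw [decide_eq_true_eq] at h6
  exact h6 (tt_isq hchk hc hk hl (hn k) (hn l) (hb k) (hb l) (h1 k l hk hl))

/-- the value `∞` -/
theorem arith_inf (h1 : ∀ k l, k ≠ i → l ≠ i →
      IsSquare ((c k l : ℚ_[2]) * (((bp i - bp k) * (bp i - bp l) : ℤ) : ℚ_[2])))
    (h2 : IsSquare (dd : ℚ_[2])) : ∀ k l, k ≠ i → l ≠ i → c k l = 1 := by
  have hg := hchk.2.2.1 0
  have e : (fun k => 1 - bp k * (2 * (((0 : Fin 4) : ℕ) : ℤ))) = fun _ => 1 := by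
    funext k
    simp
  rw [e] at hg
  refine fin_good hchk hc (fun _ => one_ne_zero) (fun _ => by norm_num) hg (fun k l hk hl => ?_) ?_
  · have := h1 k l hk hl
    unfold tt
    rw [mul_one, mul_one]
    push_cast
    push_cast at this
    exact this
  · simpa using h2

/-- finite values -/
theorem arith (x₀ : ℚ_[2])
    (h1 : ∀ k l, k ≠ i → l ≠ i → x₀ ≠ bp k → x₀ ≠ bp l →
      IsSquare ((c k l : ℚ_[2]) * (((bp i - bp k) * (bp i - bp l) : ℤ) : ℚ_[2]) *
        ((x₀ - bp k) * (x₀ - bp l))))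
    (h2 : (∀ k, x₀ ≠ bp k) → IsSquare ((dd : ℚ_[2]) * ∏ k, (x₀ - bp k))) :
    ∀ k l, k ≠ i → l ≠ i → c k l = 1 := by
  classical
  -- the general case
  have gen : ∀ (n : Fin 6 → ℤ) (ξ : ℚ_[2]) (s : Fin 6 → ℚ_[2]), ξ ≠ 0 → (∀ k, s k ≠ 0) →
      (∀ k, n k ≠ 0) → (∀ k, (n k).natAbs ≤ 300) → (∀ k, x₀ - bp k = ξ * (n k * s k ^ 2)) →
      good cs dd n → ∀ k l, k ≠ i → l ≠ i → c k l = 1 := by
    intro n ξ s hξ hs hn hb hx hg
    have hne : ∀ k, x₀ ≠ bp k := by
      intro k h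
      have h3 := hx k
      rw [h, sub_self] at h3
      exact mul_ne_zero hξ (mul_ne_zero (by exact_mod_cast hn k) (pow_ne_zero 2 (hs k))) h3.symm
    refine fin_good hchk hc hn hb hg (fun k l hk hl => ?_) ?_
    · have h3 := h1 k l hk hl (hne k) (hne l)
      rw [hx k, hx l] at h3
      apply IsSquare.of_mul_sq (mul_ne_zero hξ (mul_ne_zero (hs k) (hs l)))
      obtain ⟨z, hz⟩ := h3
      refine ⟨z, ?_⟩
      unfold tt
      push_cast
      push_cast at hz
      linear_combination hz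
    · have h3 := h2 hne
      rw [Fin.prod_univ_six, hx 0, hx 1, hx 2, hx 3, hx 4, hx 5] at h3
      apply IsSquare.of_mul_sq (mul_ne_zero (pow_ne_zero 3 hξ)
        (mul_ne_zero (mul_ne_zero (mul_ne_zero (mul_ne_zero (mul_ne_zero (hs 0) (hs 1)) (hs 2)) (hs 3))
          (hs 4)) (hs 5)))
      obtain ⟨z, hz⟩ := h3
      refine ⟨z, ?_⟩
      push_cast
      linear_combination hz
  by_cases hx1 : ‖x₀‖ ≤ 1
  · obtain ⟨X, hX⟩ := iz_mk x₀ hx1
    obtain ⟨w, hw⟩ : ∃ w : ℤ_[2], X = (X.appr 8 : ℤ_[2]) + 256 * w := by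
      have h3 := PadicInt.appr_spec 8 X
      rw [Ideal.mem_span_singleton] at h3
      obtain ⟨w, hw⟩ := h3
      refine ⟨w, ?_⟩
      have h4 : (((2 : ℕ) : ℤ_[2]) ^ 8) = 256 := by norm_num
      rw [h4] at hw
      rw [← hw]; ring
    have hr : X.appr 8 < 256 := by
      have := PadicInt.appr_lt X 8
      simpa using this
    obtain ⟨r, hrd⟩ : ∃ r : ℕ, r = X.appr 8 := ⟨_, rfl⟩
    rw [← hrd] at hw hr
    have hx0 : x₀ = (r : ℚ_[2]) + 256 * iz w := by
      rw [← hX, hw, map_add, map_mul, map_natCast, map_ofNat]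
    by_cases hm : ∃ m, (64 : ℤ) ∣ (r : ℤ) - bp m
    · obtain ⟨m, j, hj⟩ := hm
      -- near a branch point
      have hx0' : x₀ = (bp m : ℚ_[2]) + 64 * iz (j + 4 * w) := by
        have h3 : ((r : ℤ) : ℚ_[2]) = ((bp m + 64 * j : ℤ) : ℚ_[2]) := by
          congr 1
          linarith
        push_cast at h3
        rw [hx0, h3, map_add, map_mul, map_intCast, map_ofNat]
        ring
      have hs : ∀ k, k ≠ m → ∃ s : ℚ_[2], s ≠ 0 ∧ x₀ - bp k = ((bp m - bp k : ℤ) : ℚ_[2]) * s ^ 2 := by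
        intro k hk
        obtain ⟨s, hs0, hs⟩ := near 3 (bp m - bp k) (bp_16 hk) (j + 4 * w)
        refine ⟨s, hs0, ?_⟩
        rw [← hs, hx0']
        push_cast
        ring
      choose! s hs0 hs using hs
      have hne : ∀ k, k ≠ m → x₀ ≠ bp k := by
        intro k hk h
        have h3 := hs k hk
        rw [h, sub_self] at h3
        exact mul_ne_zero (by exact_mod_cast bp_ne hk) (pow_ne_zero 2 (hs0 k hk)) h3.symm
      have hsq : ∀ k l, k ≠ i → l ≠ i → k ≠ m → l ≠ m →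
          IsSquare ((c k l * tt (fun j => bp m - bp j) i k l : ℤ) : ℚ_[2]) := by
        intro k l hk hl hkm hlm
        have h3 := h1 k l hk hl (hne k hkm) (hne l hlm)
        rw [hs k hkm, hs l hlm] at h3
        apply IsSquare.of_mul_sq (mul_ne_zero (hs0 k hkm) (hs0 l hlm))
        obtain ⟨z, hz⟩ := h3
        refine ⟨z, ?_⟩
        unfold tt
        push_cast
        push_cast at hz
        linear_combination hz
      by_cases hmi : m = i
      · subst hmi
        intro k l hk hl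
        obtain ⟨h3, h4, h5⟩ := hchk.2.2.2.1 _ (hc k l hk hl)
        apply h5
        refine isq_of 40 _ h3 (lt_of_le_of_lt h4 (by norm_num)) ?_
        have h6 := hsq k l hk hl hk hl
        apply IsSquare.of_mul_sq (s := (((bp m - bp k) * (bp m - bp l) : ℤ) : ℚ_[2]))
          (by exact_mod_cast mul_ne_zero (bp_ne hk) (bp_ne hl))
        obtain ⟨z, hz⟩ := h6
        refine ⟨z, ?_⟩
        unfold tt at hz
        push_cast
        push_cast at hz
        linear_combination hz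
      · exfalso
        obtain ⟨k, l, h3, h4, h5, h6, h7⟩ := hchk.2.1 i m hmi
        rw [List.all_eq_true] at h7
        have h8 := h7 _ (hc k l h3 h5)
        have h9 := tt_isq hchk hc (n := fun j => bp m - bp j) h3 h5 (bp_ne h4) (bp_ne h6)
          ((bp_dif m k).trans (by norm_num)) ((bp_dif m l).trans (by norm_num))
          (hsq k l h3 h5 h4 h6)
        rw [h9] at h8
        exact absurd h8 (by decide)
    · push Not at hm
      have hs : ∀ k, ∃ s : ℚ_[2], s ≠ 0 ∧ x₀ - bp k = 1 * ((((r : ℤ) - bp k : ℤ) : ℚ_[2]) * s ^ 2) := by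
        intro k
        obtain ⟨s, hs0, hs⟩ := near 5 ((r : ℤ) - bp k) (by
          have := hm k
          norm_num
          exact this) w
        refine ⟨s, hs0, ?_⟩
        rw [one_mul, ← hs, hx0]
        push_cast
        ring
      choose s hs0 hs using hs
      refine gen (fun k => (r : ℤ) - bp k) 1 s one_ne_zero hs0 (fun k => ?_) (fun k => ?_) hs
        (hchk.1 ⟨r, hr⟩ hm)
      · intro h
        apply hm k
        rw [h]
        exact dvd_zero _
      · have : ∀ k, -30 ≤ bp k ∧ bp k ≤ 30 := by decide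
        have := this k
        omega
  · -- large values
    push Not at hx1
    have hx00 : x₀ ≠ 0 := by
      rintro rfl
      rw [norm_zero] at hx1
      linarith
    have hz1 : ‖x₀⁻¹‖ < 1 := by
      rw [norm_inv]
      exact inv_lt_one_of_one_lt₀ hx1
    obtain ⟨Z, hZ⟩ := iz_mk x₀⁻¹ hz1.le
    obtain ⟨w, hw⟩ : ∃ w : ℤ_[2], Z = (Z.appr 3 : ℤ_[2]) + 8 * w := by
      have h3 := PadicInt.appr_spec 3 Z
      rw [Ideal.mem_span_singleton] at h3
      obtain ⟨w, hw⟩ := h3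
      refine ⟨w, ?_⟩
      have h4 : (((2 : ℕ) : ℤ_[2]) ^ 3) = 8 := by norm_num
      rw [h4] at hw
      rw [← hw]; ring
    have hr : Z.appr 3 < 8 := by
      have := PadicInt.appr_lt Z 3
      simpa using this
    obtain ⟨r, hrd⟩ : ∃ r : ℕ, r = Z.appr 3 := ⟨_, rfl⟩
    rw [← hrd] at hw hr
    have h2r : 2 ∣ r := by
      have h3 : ‖Z‖ < 1 := by rw [← norm_iz, hZ]; exact hz1
      have h4 : ‖((r : ℤ) : ℤ_[2])‖ < 1 := by
        have h5 : ((r : ℤ) : ℤ_[2]) = Z - 8 * w := by rw [hw]; push_cast; ring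
        rw [h5]
        refine lt_of_le_of_lt (PadicInt.nonarchimedean Z (-(8 * w))|>.trans_eq' (by rw [sub_eq_add_neg])) ?_
        rw [max_lt_iff, norm_neg, norm_mul]
        refine ⟨h3, ?_⟩
        have h8 : ‖(8 : ℤ_[2])‖ < 1 := by
          have : (8 : ℤ_[2]) = ((8 : ℤ) : ℤ_[2]) := by norm_num
          rw [this, PadicInt.norm_int_lt_one_iff_dvd]
          norm_num
        have := PadicInt.norm_le_one w
        nlinarith [norm_nonneg w, norm_nonneg (8 : ℤ_[2])]
      rw [PadicInt.norm_int_lt_one_iff_dvd] at h4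
      exact_mod_cast h4
    obtain ⟨t, ht⟩ := h2r
    have hs : ∀ k, ∃ s : ℚ_[2], s ≠ 0 ∧
        x₀ - bp k = x₀ * (((1 - bp k * (2 * (t : ℤ)) : ℤ) : ℚ_[2]) * s ^ 2) := by
      intro k
      obtain ⟨s, hs0, hs⟩ := near 0 (1 - bp k * (2 * (t : ℤ))) (by
        rw [zero_add, pow_one]
        intro h
        have h5 : (2 : ℤ) ∣ bp k * (2 * (t : ℤ)) := ⟨bp k * t, by ring⟩
        have h6 := dvd_add h h5
        rw [sub_add_cancel] at h6
        norm_num at h6) (-(bp k : ℤ_[2]) * w)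
      refine ⟨s, hs0, ?_⟩
      rw [← hs]
      have h7 : x₀⁻¹ = 2 * (t : ℚ_[2]) + 8 * iz w := by
        rw [← hZ, hw, ht, map_add, map_mul, map_natCast, map_ofNat]
        push_cast
        ring
      have h8 : x₀ * (1 - bp k * x₀⁻¹) = x₀ - bp k := by
        field_simp
      rw [← h8, h7, map_mul, map_neg, map_intCast]
      push_cast
      ring
    choose s hs0 hs using hs
    refine gen (fun k => 1 - bp k * (2 * (t : ℤ))) x₀ s hx00 hs0 (fun k => ?_) (fun k => ?_) hs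
      (hchk.2.2.1 ⟨t, by omega⟩)
    · intro h
      have h5 : 2 * (bp k * (t : ℤ)) = 1 := by linear_combination -h
      omega
    · have : ∀ k, -30 ≤ bp k ∧ bp k ≤ 30 := by decide
      have h5 := this k
      have h6 : t < 4 := by omega
      have h7 : (bp k * (2 * (t : ℤ))).natAbs ≤ 30 * 6 := nam (by omega) (by omega)
      omega

end

end Pool.Agent.Zk94.PT
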