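import Mathlib
import Pool.Agent.Zk94.PT.Ari2

/-!
# The square classes are in a group of order four
-/

set_option autoImplicit false
set_option linter.all false

namespace Pool.Agent.Zk94.PT

/-- a squarefree integer with no prime factor above 3 -/
theorem sqf_small {c : ℤ} (hc : Squarefree c) (h : ∀ q : ℕ, q.Prime → (q : ℤ) ∣ c → q = 2 ∨ q = 3) :
    c ∈ ([1, -1, 2, -2, 3, -3, 6, -6] : List ℤ) := by
  have h1 : Squarefree c.natAbs := Int.squarefree_natAbs.2 hc
  have h2 : c.natAbs ∣ 6 := by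
    rw [← Nat.prod_primeFactors_of_squarefree h1]
    have h3 : c.natAbs.primeFactors ⊆ {2, 3} := by
      intro q hq
      rw [Nat.mem_primeFactors] at hq
      have := h q hq.1 (Int.natCast_dvd.2 hq.2.1)
      simpa using this
    have h4 := Finset.prod_dvd_prod_of_subset _ _ (fun q : ℕ => q) h3
    simpa using h4
  have h5 : c.natAbs ≤ 6 := Nat.le_of_dvd (by norm_num) h2
  have h6 : c.natAbs ≠ 0 := fun h => by rw [h] at h2; simp at h2
  have h7 : c.natAbs = 1 ∨ c.natAbs = 2 ∨ c.natAbs = 3 ∨ c.natAbs = 6 := by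
    interval_cases h8 : c.natAbs <;> simp_all
  simp only [List.mem_cons, List.not_mem_nil, or_false]
  omega

section

variable {p : ℕ} [hp : Fact p.Prime]

theorem sq_mul_of {a b : ZMod p} (ha : IsSquare a) (hb : IsSquare b) : IsSquare (a * b) := by
  obtain ⟨u, rfl⟩ := ha
  obtain ⟨v, rfl⟩ := hb
  exact ⟨u * v, by ring⟩

theorem sq_div_of {a b : ZMod p} (ha : IsSquare a) (ha0 : a ≠ 0) (hb : IsSquare (a * b)) :
    IsSquare b := by
  obtain ⟨u, hu⟩ := ha
  obtain ⟨v, hv⟩ := hb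
  have hu0 : u ≠ 0 := by
    rintro rfl
    exact ha0 (by rw [hu, mul_zero])
  refine ⟨v / u, ?_⟩
  rw [div_mul_div_comm, ← hv, ← hu]
  field_simp

theorem two_iff (h5 : 5 < p) : IsSquare (2 : ZMod p) ↔ p % 8 = 1 ∨ p % 8 = 7 :=
  ZMod.exists_sq_eq_two_iff (by omega)

theorem m2_iff (h5 : 5 < p) : IsSquare (-2 : ZMod p) ↔ p % 8 = 1 ∨ p % 8 = 3 :=
  ZMod.exists_sq_eq_neg_two_iff (by omega)

theorem m1_iff : IsSquare (-1 : ZMod p) ↔ p % 4 ≠ 3 := ZMod.exists_sq_eq_neg_one_iff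

instance f3 : Fact (Nat.Prime 3) := ⟨Nat.prime_three⟩

theorem mod3 (a : ℕ) (h : p % 3 = a) : ((p : ℕ) : ZMod 3) = (a : ZMod 3) := by
  rw [← h]
  simp

theorem three1 (h5 : 5 < p) (h1 : p % 4 = 1) (h2 : p % 3 = 2) : ¬ IsSquare (3 : ZMod p) := by
  have h := ZMod.exists_sq_eq_prime_iff_of_mod_four_eq_one (p := p) (q := 3) h1 (by norm_num)
  rw [mod3 2 h2] at h
  have h3 : ((3 : ℕ) : ZMod p) = 3 := by norm_num
  rw [h3] at h
  rw [h]
  decide

theorem three3 (h5 : 5 < p) (h1 : p % 4 = 3) (h2 : p % 3 = 2) : IsSquare (3 : ZMod p) := by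
  have h := ZMod.exists_sq_eq_prime_iff_of_mod_four_eq_three (p := p) (q := 3) h1 (by norm_num)
    (by omega)
  rw [mod3 2 h2] at h
  have h3 : ((3 : ℕ) : ZMod p) = 3 := by norm_num
  rw [h3] at h
  rw [h]
  decide

theorem three31 (h5 : 5 < p) (h1 : p % 4 = 3) (h2 : p % 3 = 1) : ¬ IsSquare (3 : ZMod p) := by
  have h := ZMod.exists_sq_eq_prime_iff_of_mod_four_eq_three (p := p) (q := 3) h1 (by norm_num)
    (by omega)
  rw [mod3 1 h2] at h
  have h3 : ((3 : ℕ) : ZMod p) = 3 := by norm_num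
  rw [h3] at h
  rw [h, not_not]
  decide

theorem nz (n : ℕ) (h5 : 5 < p) (h0 : 0 < n) (hn : n < 6) : (n : ZMod p) ≠ 0 := by
  intro h
  rw [ZMod.natCast_eq_zero_iff] at h
  have := Nat.le_of_dvd h0 h
  omega

/-- the squares modulo `p` among the divisors of `6` -/
theorem res5 (h5 : 5 < p) (h : p % 24 = 5) {c : ℤ} (hc : c ∈ ([1, -1, 2, -2, 3, -3, 6, -6] : List ℤ))
    (hsq : IsSquare (c : ZMod p)) : c ∈ ([1, -1, 6, -6] : List ℤ) := by
  have hm1 : IsSquare (-1 : ZMod p) := m1_iff.2 (by omega)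
  have h2 : ¬ IsSquare (2 : ZMod p) := by rw [two_iff h5]; omega
  have hm2 : ¬ IsSquare (-2 : ZMod p) := by rw [m2_iff h5]; omega
  have h3 := three1 h5 (by omega) (by omega)
  have hm3 : ¬ IsSquare (-3 : ZMod p) := by
    intro hh
    apply h3
    have := sq_mul_of hm1 hh
    simpa using this
  simp only [List.mem_cons, List.not_mem_nil, or_false] at hc ⊢
  rcases hc with rfl | rfl | rfl | rfl | rfl | rfl | rfl | rfl
  · simp
  · simp
  · exact absurd (by simpa using hsq) h2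
  · exact absurd (by simpa using hsq) hm2
  · exact absurd (by simpa using hsq) h3
  · exact absurd (by simpa using hsq) hm3
  · simp
  · simp

theorem res11 (h5 : 5 < p) (h : p % 24 = 11) {c : ℤ}
    (hc : c ∈ ([1, -1, 2, -2, 3, -3, 6, -6] : List ℤ))
    (hsq : IsSquare (c : ZMod p)) : c ∈ ([1, -2, 3, -6] : List ℤ) := by
  have hm1 : ¬ IsSquare (-1 : ZMod p) := by rw [m1_iff]; omega
  have h2 : ¬ IsSquare (2 : ZMod p) := by rw [two_iff h5]; omega
  have h3 := three3 h5 (by omega) (by omega)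
  have h30 : (3 : ZMod p) ≠ 0 := by exact_mod_cast nz 3 h5 (by norm_num) (by norm_num)
  have hm3 : ¬ IsSquare (-3 : ZMod p) := by
    intro hh
    apply hm1
    refine sq_div_of h3 h30 ?_
    simpa using hh
  have h6 : ¬ IsSquare (6 : ZMod p) := by
    intro hh
    apply h2
    refine sq_div_of h3 h30 ?_
    have e : (3 : ZMod p) * 2 = 6 := by norm_num
    rw [e]
    exact hh
  simp only [List.mem_cons, List.not_mem_nil, or_false] at hc ⊢
  rcases hc with rfl | rfl | rfl | rfl | rfl | rfl | rfl | rfl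
  · simp
  · exact absurd (by simpa using hsq) hm1
  · exact absurd (by simpa using hsq) h2
  · simp
  · simp
  · exact absurd (by simpa using hsq) hm3
  · exact absurd (by simpa using hsq) h6
  · simp

theorem res7 (h5 : 5 < p) (h : p % 24 = 7) {c : ℤ}
    (hc : c ∈ ([1, -1, 2, -2, 3, -3, 6, -6] : List ℤ))
    (hsq : IsSquare (c : ZMod p)) : c ∈ ([1, 2, -3, -6] : List ℤ) := by
  have hm1 : ¬ IsSquare (-1 : ZMod p) := by rw [m1_iff]; omega
  have h2 : IsSquare (2 : ZMod p) := by rw [two_iff h5]; omega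
  have hm2 : ¬ IsSquare (-2 : ZMod p) := by rw [m2_iff h5]; omega
  have h3 := three31 h5 (by omega) (by omega)
  have h20 : (2 : ZMod p) ≠ 0 := by exact_mod_cast nz 2 h5 (by norm_num) (by norm_num)
  have h6 : ¬ IsSquare (6 : ZMod p) := by
    intro hh
    apply h3
    refine sq_div_of h2 h20 ?_
    have e : (2 : ZMod p) * 3 = 6 := by norm_num
    rw [e]
    exact hh
  simp only [List.mem_cons, List.not_mem_nil, or_false] at hc ⊢
  rcases hc with rfl | rfl | rfl | rfl | rfl | rfl | rfl | rfl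
  · simp
  · exact absurd (by simpa using hsq) hm1
  · simp
  · exact absurd (by simpa using hsq) hm2
  · exact absurd (by simpa using hsq) h3
  · simp
  · exact absurd (by simpa using hsq) h6
  · simp

theorem res19 (h5 : 5 < p) (h : p % 24 = 19) {c : ℤ}
    (hc : c ∈ ([1, -1, 2, -2, 3, -3, 6, -6] : List ℤ))
    (hsq : IsSquare (c : ZMod p)) : c ∈ ([1, -2, -3, 6] : List ℤ) := by
  have hm1 : ¬ IsSquare (-1 : ZMod p) := by rw [m1_iff]; omega
  have h2 : ¬ IsSquare (2 : ZMod p) := by rw [two_iff h5]; omega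
  have hm2 : IsSquare (-2 : ZMod p) := by rw [m2_iff h5]; omega
  have h3 := three31 h5 (by omega) (by omega)
  have h20 : (-2 : ZMod p) ≠ 0 := by
    rw [neg_ne_zero]
    exact_mod_cast nz 2 h5 (by norm_num) (by norm_num)
  have hm6 : ¬ IsSquare (-6 : ZMod p) := by
    intro hh
    apply h3
    refine sq_div_of hm2 h20 ?_
    have e : (-2 : ZMod p) * 3 = -6 := by norm_num
    rw [e]
    exact hh
  simp only [List.mem_cons, List.not_mem_nil, or_false] at hc ⊢
  rcases hc with rfl | rfl | rfl | rfl | rfl | rfl | rfl | rfl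
  · simp
  · exact absurd (by simpa using hsq) hm1
  · exact absurd (by simpa using hsq) h2
  · simp
  · exact absurd (by simpa using hsq) h3
  · simp
  · simp
  · exact absurd (by simpa using hsq) hm6

end

/-- the factorisation `t = c m²` -/
theorem cls {p : ℕ} (hp : p.Prime) (h5 : 5 < p) {s E : ℤ} (hs0 : s ≠ 0) (hE0 : E ≠ 0)
    (hE : ∀ q : ℕ, q.Prime → 5 < q → ¬ (q : ℤ) ∣ E)
    (hs : ∀ q : ℕ, q.Prime → 5 < q → ¬ (q : ℤ) ∣ s)
    (h55 : ∃ j : ℕ, (5 : ℤ) ^ (2 * j) ∣ s * E ∧ ¬ (5 : ℤ) ^ (2 * j + 1) ∣ s * E)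
    (hn : ∃ n : ℤ, (p : ℤ) ∣ s * E - n ^ 2) :
    ∃ c m : ℤ, m ≠ 0 ∧ s * E = c * m ^ 2 ∧ c ∈ ([1, -1, 2, -2, 3, -3, 6, -6] : List ℤ) ∧
      IsSquare (c : ZMod p) := by
  haveI : Fact p.Prime := ⟨hp⟩
  have ht0 : s * E ≠ 0 := mul_ne_zero hs0 hE0
  obtain ⟨c, m, hm, hc, hcm⟩ : ∃ c m : ℤ, m ≠ 0 ∧ Squarefree c ∧ s * E = c * m ^ 2 := by
    obtain ⟨a, b, hb, hab⟩ := Nat.sq_mul_squarefree (s * E).natAbs
    have hb0 : b ≠ 0 := by
      rintro rfl
      rw [zero_pow two_ne_zero, zero_mul] at hb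
      exact ht0 (Int.natAbs_eq_zero.1 hb.symm)
    refine ⟨(s * E).sign * a, b, by exact_mod_cast hb0, ?_, ?_⟩
    · rw [← Int.squarefree_natAbs, Int.natAbs_mul, Int.natAbs_sign_of_ne_zero ht0, one_mul]
      simpa using hab
    · have h1 : (s * E).sign * ((s * E).natAbs : ℤ) = s * E := Int.sign_mul_natAbs _
      rw [← hb] at h1
      push_cast at h1
      linear_combination -h1
  refine ⟨c, m, hm, hcm, sqf_small hc (fun q hq hqc => ?_), ?_⟩
  · have hqt : (q : ℤ) ∣ s * E := by rw [hcm]; exact dvd_mul_of_dvd_left hqc _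
    have hqi : Prime (q : ℤ) := Nat.prime_iff_prime_int.1 hq
    rcases Nat.lt_or_ge 5 q with h6 | h6
    · rcases hqi.dvd_or_dvd hqt with h7 | h7
      · exact absurd h7 (hs q hq h6)
      · exact absurd h7 (hE q hq h6)
    · have h7 : q ≠ 5 := by
        rintro rfl
        obtain ⟨j, hj1, hj2⟩ := h55
        have h8 : emultiplicity (5 : ℤ) (s * E) = (2 * j : ℕ) :=
          emultiplicity_eq_coe.2 ⟨hj1, hj2⟩
        rw [hcm] at h8
        have hqi' : Prime (5 : ℤ) := hqi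
        rw [emultiplicity_mul hqi', emultiplicity_pow hqi'] at h8
        have h9 : emultiplicity (5 : ℤ) c = (1 : ℕ) := by
          rw [emultiplicity_eq_coe]
          refine ⟨by simpa using hqc, fun h => ?_⟩
          have h10 := hc 5 (by simpa [sq] using h)
          exact hqi'.not_unit h10
        have h11 : FiniteMultiplicity (5 : ℤ) m := Int.finiteMultiplicity_iff.2 ⟨by decide, hm⟩
        obtain ⟨a, ha⟩ : ∃ a : ℕ, emultiplicity (5 : ℤ) m = a :=
          ⟨_, h11.emultiplicity_eq_multiplicity⟩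
        rw [h9, ha] at h8
        have h12 : ((1 + 2 * a : ℕ) : ℕ∞) = ((2 * j : ℕ) : ℕ∞) := by
          rw [← h8]
          push_cast
          rfl
        have h13 : 1 + 2 * a = 2 * j := by exact_mod_cast h12
        omega
      have h8 : q ≠ 4 := by rintro rfl; revert hq; decide
      have h9 := hq.two_le
      omega
  · obtain ⟨n, hn⟩ := hn
    have h1 : ((s * E - n ^ 2 : ℤ) : ZMod p) = 0 := (ZMod.intCast_zmod_eq_zero_iff_dvd _ _).2 hn
    rw [hcm] at h1
    push_cast at h1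
    have hm0 : ((m : ℤ) : ZMod p) ≠ 0 := by
      intro h
      rw [ZMod.intCast_zmod_eq_zero_iff_dvd] at h
      have h2 : (p : ℤ) ∣ s * E := by
        rw [hcm]; exact dvd_mul_of_dvd_right (dvd_pow h two_ne_zero) _
      rcases (Nat.prime_iff_prime_int.1 hp).dvd_or_dvd h2 with h7 | h7
      · exact absurd h7 (hs p hp h5)
      · exact absurd h7 (hE p hp h5)
    refine ⟨(n : ZMod p) / m, ?_⟩
    field_simp
    linear_combination h1

end Pool.Agent.Zk94.PT
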