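import Mathlib
import Pool.Agent.Zk94.PT.Cls
import Pool.Agent.Zk12.Two

/-!
# The values at a point over `ℚ₂`
-/

set_option autoImplicit false
set_option linter.all false

open Polynomial NumberField IsDedekindDomain IntermediateField

namespace Pool.Agent.Zk94.PT

open Pool.Agent.W620.SC Pool.Agent.TH954 Pool.Agent.Y158.GR

attribute [-instance] DivisionRing.toRatAlgebra SubfieldClass.instSMulRat
attribute [local instance 1] DivisionRing.toRatAlgebra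

section

variable {L : Type} [Field L] [Algebra ℚ L] (pl : Plc ℚ L ℚ_[2])

theorem val_sq {a : ℚ} (ha : a ≠ 0) {z : L} {c : ℚ_[2]}
    (h : pl.val (algebraMap ℚ L a * z ^ 2) c) : ∃ b : ℚ_[2], (a : ℚ_[2]) * b ^ 2 = c := by
  have haL : algebraMap ℚ L a ≠ 0 := (_root_.map_ne_zero _).2 ha
  have hz : z ∈ pl.W := by
    by_contra hz
    have h1 := Plc.val_inv_of_notMem hz
    have hz0 : z ≠ 0 := fun h0 => hz (by rw [h0]; exact zero_mem _)
    apply hz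
    have h2 : z = algebraMap ℚ L a⁻¹ * ((algebraMap ℚ L a * z ^ 2) * z⁻¹) := by
      rw [map_inv₀]
      field_simp
    rw [h2]
    exact mul_mem (Plc.val_alg (pl := pl) a⁻¹).mem (mul_mem h.mem h1.mem)
  obtain ⟨b, hb⟩ := Plc.val_of_mem hz
  refine ⟨b, ?_⟩
  have h3 := (Plc.val_alg (pl := pl) a).mul (hb.mul hb)
  rw [← pow_two, ← pow_two] at h3
  rw [h.unique h3, eq_ratCast]

theorem val_prod {ι : Type} [Fintype ι] (f : ι → L) (g : ι → ℚ_[2]) (h : ∀ i, pl.val (f i) (g i)) :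
    pl.val (∏ i, f i) (∏ i, g i) := by
  classical
  have key : ∀ T : Finset ι, pl.val (∏ i ∈ T, f i) (∏ i ∈ T, g i) := by
    intro T
    induction T using Finset.induction_on with
    | empty => rw [Finset.prod_empty, Finset.prod_empty]; exact Plc.val_one
    | insert m T' hm ih =>
      rw [Finset.prod_insert hm, Finset.prod_insert hm]
      exact (h m).mul ih
  exact key _

include pl in
theorem loc2 (X y : L) {d : ℤ} (hd : d ≠ 0) (s : Fin 6 → Fin 6 → ℤ) (hs0 : ∀ k l, s k l ≠ 0)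
    (β : Fin 6 → Fin 6 → L)
    (hβ : ∀ k l, algebraMap ℚ L (s k l) * (β k l) ^ 2 =
      (X - algebraMap ℚ L (bp k)) * (X - algebraMap ℚ L (bp l)))
    (hy : algebraMap ℚ L d * y ^ 2 = ∏ k, (X - algebraMap ℚ L (bp k))) :
    (∃ x₀ : ℚ_[2], (∀ k l, ∃ b : ℚ_[2], (s k l : ℚ_[2]) * b ^ 2 = (x₀ - bp k) * (x₀ - bp l)) ∧
      ∃ b : ℚ_[2], (d : ℚ_[2]) * b ^ 2 = ∏ k, (x₀ - bp k)) ∨
    ((∀ k l, ∃ b : ℚ_[2], (s k l : ℚ_[2]) * b ^ 2 = 1) ∧ ∃ b : ℚ_[2], (d : ℚ_[2]) * b ^ 2 = 1) := by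
  have hsQ : ∀ k l, ((s k l : ℤ) : ℚ) ≠ 0 := fun k l => by exact_mod_cast hs0 k l
  have hdQ : ((d : ℤ) : ℚ) ≠ 0 := by exact_mod_cast hd
  have hcst : ∀ n : ℤ, pl.val (algebraMap ℚ L (n : ℚ)) (n : ℚ_[2]) := by
    intro n
    have h1 := Plc.val_alg (pl := pl) (n : ℚ)
    have h2 : algebraMap ℚ ℚ_[2] (n : ℚ) = (n : ℚ_[2]) := by rw [eq_ratCast, Rat.cast_intCast]
    rwa [h2] at h1
  by_cases hX : X ∈ pl.W
  · left
    obtain ⟨x₀, hx₀⟩ := Plc.val_of_mem hX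
    refine ⟨x₀, fun k l => ?_, ?_⟩
    · have h1 := (hx₀.sub (hcst (bp k))).mul (hx₀.sub (hcst (bp l)))
      rw [← hβ] at h1
      have h2 := val_sq pl (hsQ k l) h1
      rwa [Rat.cast_intCast] at h2
    · have h1 := val_prod pl _ _ (fun k => hx₀.sub (hcst (bp k)))
      rw [← hy] at h1
      have h2 := val_sq pl hdQ h1
      rwa [Rat.cast_intCast] at h2
  · right
    have hX0 : X ≠ 0 := fun h0 => hX (by rw [h0]; exact zero_mem _)
    have hXi := Plc.val_inv_of_notMem hX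
    have h1 : ∀ k, pl.val ((X - algebraMap ℚ L (bp k)) * X⁻¹) 1 := by
      intro k
      have h2 := (Plc.val_one (pl := pl)).sub ((hcst (bp k)).mul hXi)
      rw [mul_zero, sub_zero] at h2
      have h3 : (X - algebraMap ℚ L (bp k)) * X⁻¹ = 1 - algebraMap ℚ L (bp k) * X⁻¹ := by
        rw [sub_mul, mul_inv_cancel₀ hX0]
      rw [h3]
      exact h2
    refine ⟨fun k l => ?_, ?_⟩
    · have h2 := (h1 k).mul (h1 l)
      rw [mul_one] at h2
      have h3 : (X - algebraMap ℚ L (bp k)) * X⁻¹ * ((X - algebraMap ℚ L (bp l)) * X⁻¹) =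
          algebraMap ℚ L (s k l) * (β k l * X⁻¹) ^ 2 := by
        linear_combination (-(X⁻¹ ^ 2)) * hβ k l
      rw [h3] at h2
      have h4 := val_sq pl (hsQ k l) h2
      rwa [Rat.cast_intCast] at h4
    · have h2 := val_prod pl _ _ h1
      rw [Finset.prod_const_one] at h2
      have h3 : ∏ k, ((X - algebraMap ℚ L (bp k)) * X⁻¹) =
          algebraMap ℚ L d * (y * X⁻¹ ^ 3) ^ 2 := by
        rw [Finset.prod_mul_distrib, ← hy, Finset.prod_const, Finset.card_univ, Fintype.card_fin]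
        ring
      rw [h3] at h2
      have h4 := val_sq pl hdQ h2
      rwa [Rat.cast_intCast] at h4

end

/-- the conclusion at the prime 2 -/
theorem conc {cs : List ℤ} {dd d : ℤ} (hchk : Chk cs dd) (hdd : ∃ u : ℚ_[2], (dd : ℚ_[2]) * d = u ^ 2)
    {i : Fin 6} {s c m : Fin 6 → Fin 6 → ℤ} (hc : ∀ k l, k ≠ i → l ≠ i → c k l ∈ cs)
    (hcm : ∀ k l, k ≠ i → l ≠ i →
      s k l * ((bp i - bp k) * (bp i - bp l)) = c k l * m k l ^ 2)
    (h : (∃ x₀ : ℚ_[2], (∀ k l, ∃ b : ℚ_[2], (s k l : ℚ_[2]) * b ^ 2 = (x₀ - bp k) * (x₀ - bp l)) ∧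
      ∃ b : ℚ_[2], (d : ℚ_[2]) * b ^ 2 = ∏ k, (x₀ - bp k)) ∨
    ((∀ k l, ∃ b : ℚ_[2], (s k l : ℚ_[2]) * b ^ 2 = 1) ∧ ∃ b : ℚ_[2], (d : ℚ_[2]) * b ^ 2 = 1)) :
    ∀ k l, k ≠ i → l ≠ i → c k l = 1 := by
  obtain ⟨u, hu⟩ := hdd
  have hcm' : ∀ k l, k ≠ i → l ≠ i → (s k l : ℚ_[2]) * (((bp i : ℚ_[2]) - bp k) * (bp i - bp l)) =
      c k l * m k l ^ 2 := fun k l hk hl => by exact_mod_cast hcm k l hk hl
  rcases h with ⟨x₀, h1, b, hb⟩ | ⟨h1, b, hb⟩
  · refine arith hchk hc x₀ (fun k l hk hl _ _ => ?_) (fun _ => ?_)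
    · obtain ⟨w, hw⟩ := h1 k l
      refine ⟨c k l * m k l * w, ?_⟩
      rw [← hw]
      push_cast
      linear_combination (c k l : ℚ_[2]) * w ^ 2 * hcm' k l hk hl
    · refine ⟨u * b, ?_⟩
      rw [← hb]
      linear_combination b ^ 2 * hu
  · refine arith_inf hchk hc (fun k l hk hl => ?_) ?_
    · obtain ⟨w, hw⟩ := h1 k l
      refine ⟨c k l * m k l * w, ?_⟩
      push_cast
      linear_combination (c k l : ℚ_[2]) * w ^ 2 * hcm' k l hk hl -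
        (c k l : ℚ_[2]) * (((bp i : ℚ_[2]) - bp k) * (bp i - bp l)) * hw
    · refine ⟨u * b, ?_⟩
      linear_combination b ^ 2 * hu - (dd : ℚ_[2]) * hb

/-- `n` is a square in `ℚ₂` if it is `1` modulo `8` -/
theorem sq8 {n : ℤ} (h : n % 8 = 1) : ∃ u : ℚ_[2], (n : ℚ_[2]) = u ^ 2 := by
  obtain ⟨z, hz⟩ := sq_one_add ((n / 8 : ℤ) : ℤ_[2])
  refine ⟨iz z, ?_⟩
  have h1 := congrArg iz hz
  rw [map_add, map_mul, map_one, map_ofNat, map_intCast, map_pow] at h1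
  rw [← h1]
  have h2 : n = 1 + 8 * (n / 8) := by omega
  exact_mod_cast congrArg (fun t : ℤ => (t : ℚ_[2])) h2

end Pool.Agent.Zk94.PT
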