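import Mathlib
import Pool.Agent.Zk94.PT.Even
import Pool.Agent.Zk94.PT.Loc2
import Pool.Agent.Zk95.TD.Fin
import Pool.Agent.Zk12.TR.MainAll

/-!
# The type of a section with a point over `ℚ₂`
-/

set_option autoImplicit false
set_option linter.all false

open IsDedekindDomain NumberField Pool.Agent.W620.SC Pool.Agent.TH954

namespace Pool.Agent.Zk94.PT

open Pool.Agent.Y158.GR Pool.Agent.Zk12.TR Pool.Agent.Y157.PS Pool.Agent.Zk95.TD

attribute [-instance] DivisionRing.toRatAlgebra SubfieldClass.instSMulRat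
attribute [local instance 1] DivisionRing.toRatAlgebra

instance f5 : Fact (Nat.Prime 5) := ⟨Nat.prime_five⟩

theorem even5 {n : ℤ} (hn : n ≠ 0) {v : HeightOneSpectrum (𝓞 ℚ)}
    (hv : (v.valuation ℚ).IsEquiv (Rat.padicValuation 5))
    (h : ∃ t : ℚ, v.valuation ℚ (n : ℚ) = v.valuation ℚ t ^ 2) :
    ∃ j : ℕ, (5 : ℤ) ^ (2 * j) ∣ n ∧ ¬ (5 : ℤ) ^ (2 * j + 1) ∣ n := by
  have hfin : FiniteMultiplicity (5 : ℤ) n := Int.finiteMultiplicity_iff.2 ⟨by decide, hn⟩
  obtain ⟨n', hn', h5⟩ := hfin.exists_eq_pow_mul_and_not_dvd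
  obtain ⟨k, hk⟩ : ∃ k : ℕ, k = multiplicity (5 : ℤ) n := ⟨_, rfl⟩
  rw [← hk] at hn'
  obtain ⟨t, ht⟩ := h
  have h1 : v.valuation ℚ (n : ℚ) = WithZero.exp (-(k : ℤ)) := by
    rw [hn']
    push_cast
    rw [_root_.map_mul, _root_.map_pow, val_one hv (n := n') h5, mul_one]
    have h2 : v.valuation ℚ (5 : ℚ) = WithZero.exp (-1 : ℤ) := by
      exact_mod_cast val_p hv
    rw [h2, ← WithZero.exp_nsmul]
    congr 1
    simp
  rw [h1] at ht
  have ht0 : v.valuation ℚ t ≠ 0 := by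
    intro h0
    rw [h0, zero_pow two_ne_zero] at ht
    exact WithZero.exp_ne_zero ht
  obtain ⟨m, hm⟩ : ∃ m : ℤ, v.valuation ℚ t = WithZero.exp m :=
    ⟨WithZero.log (v.valuation ℚ t), (WithZero.exp_log ht0).symm⟩
  rw [hm, ← WithZero.exp_nsmul, WithZero.exp_inj] at ht
  simp only [nsmul_eq_mul] at ht
  push_cast at ht
  obtain ⟨j, hj⟩ : ∃ j : ℕ, k = 2 * j := ⟨k / 2, by omega⟩
  refine ⟨j, ⟨n', by rw [← hj]; exact hn'⟩, ?_⟩
  rintro ⟨w, hw⟩
  apply h5
  refine ⟨w, ?_⟩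
  rw [← hj] at hw
  have h6 : (5 : ℤ) ^ k ≠ 0 := by positivity
  apply mul_left_cancel₀ h6
  rw [← hn', hw]
  ring

theorem ex_dif (q : ℕ) (hq : q.Prime) (h5 : 5 < q) (i k : Fin 6) (h : i ≠ k) :
    ¬ (q : ℤ) ∣ ex i - ex k := by
  have h1 : (ex i - ex k).natAbs ∣ 2 ^ 5 * 3 ^ 5 * 5 ^ 5 := by revert i k; decide +kernel
  intro h2
  have h3 : q ∣ (ex i - ex k).natAbs := Int.natCast_dvd.1 h2
  have h4 := h3.trans h1
  have h6 : ∀ r : ℕ, r.Prime → q ∣ r ^ 5 → q = r := fun r hr h => 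
    (Nat.prime_dvd_prime_iff_eq hq hr).1 (hq.dvd_of_dvd_pow h)
  rcases (Nat.Prime.dvd_mul hq).1 h4 with h7 | h7
  · rcases (Nat.Prime.dvd_mul hq).1 h7 with h8 | h8
    · have := h6 2 Nat.prime_two h8; omega
    · have := h6 3 Nat.prime_three h8; omega
  · have := h6 5 Nat.prime_five h7; omega

theorem at_ex {p : ℕ} (hp : p.Prime) (h5 : 5 < p) {d D : ℤ} (hd : Squarefree d)
    (hpd : (p : ℤ) ∣ d) (hqd : ∀ q : ℕ, q.Prime → 5 < q → q ≠ p → ¬ (q : ℤ) ∣ d)
    (hD5 : ¬ (5 : ℤ) ∣ D) {r : ℚ} (hr : r ≠ 0) (hdD : (30 : ℚ) ^ 5 * D = d * r ^ 2)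
    {cs : List ℤ} {dd : ℤ} (hchk : Chk cs dd) (hdd : ∃ u : ℚ_[2], (dd : ℚ_[2]) * d = u ^ 2)
    (hres : ∀ c ∈ ([1, -1, 2, -2, 3, -3, 6, -6] : List ℤ), IsSquare (c : ZMod p) → c ∈ cs)
    (F Ω M B : Type) [Field F] [Field Ω] [Field M] [Field B] [Algebra ℚ F] [Algebra F Ω]
    [Algebra ℚ Ω] [Algebra F M] [Algebra ℚ M] [Algebra ℚ B]
    [IsScalarTower ℚ F Ω] [IsScalarTower ℚ F M] [IsAlgClosed Ω] [Algebra.IsAlgebraic F Ω]
    [IsAlgClosure ℚ B] [Algebra.IsAlgebraic ℚ B] (x y : F) (U : Set (ValuationSubring F)) (ι : M →ₐ[F] Ω)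
    (hU : ∀ O ∈ U, ∀ c : ℚ, algebraMap ℚ F c ∈ O) (hι : ι.fieldRange = unramified F Ω U)
    (hx : Transcendental ℚ x) (hF : Algebra.IsAlgebraic (IntermediateField.adjoin ℚ {x}) F)
    (hxy : (d : F) * y ^ 2 = ∏ i, (x - (ex i : F)))
    (s : GalSection ℚ F M B) (pl2 : Plc ℚ (fixL s) ℚ_[2]) :
    ∃ i, Pool.Agent.W623.SecG.At (Pool.Agent.TH213.SEL.ofGal ι hι s) x ex i := by
  classical
  have : Algebra.IsAlgebraic F M := Algebra.IsAlgebraic.of_injective ι ι.injective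
  haveI : CharZero F := charZero_of_injective_algebraMap (algebraMap ℚ F).injective
  set G : GSection ℚ F Ω U := Pool.Agent.TH213.SEL.ofGal ι hι s with hG
  have he : Function.Injective ex := by decide
  obtain ⟨S, β, hS, hβ, hSβ, hS1⟩ := Pool.Agent.W262.G3.global_ex Pool.Agent.W623.SecE.secglob ex he
    (by decide) d hd.ne_zero hU G x y hxy hx
  have hS0 : ∀ k l, S k l ≠ 0 := fun k l => (hS k l).ne_zero
  have hloc := fun (q : ℕ) (hq : q.Prime) (hq5 : 5 < q) =>
    Pool.Agent.W262.G3.local_part Pool.Agent.W623.SecG.secloc2 Pool.Agent.W240.S3.zloc ex (by decide)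
      (by decide) q hq (by omega) (fun i k hik => ex_dif q hq hq5 i k hik) d hd F Ω U hU G x y
      hxy hx S β hS hβ hSβ hS1
  obtain ⟨i, hTI⟩ := (hloc p hp h5).2 hpd
  refine ⟨i, ?_⟩
  -- the section of the subfield
  let e : unramified F Ω U ≃ₐ[F] M := Pool.Agent.TH213.SEL.phi ι hι
  have heι : ∀ z, ι (e z) = (z : Ω) := fun z => Pool.Agent.TH213.SEL.e_phi ι hι z
  let sN : GalSection ℚ F (unramified F Ω U) B :=
    { j := ((e.symm : M →ₐ[F] unramified F Ω U).restrictScalars ℚ).comp s.j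
      s := e.symm.autCongr.toMonoidHom.comp s.s
      cont := (Pool.Agent.TH213.SEL.autCongr_cont e.symm).comp s.cont
      sec := by
        intro g b
        change e.symm (s.s g (e (e.symm (s.j b)))) = e.symm (s.j (g b))
        rw [e.apply_symm_apply, s.sec] }
  have hsN : ∀ g z, e (sN.s g z) = s.s g (e z) := by
    intro g z
    change e (e.symm (s.s g (e z))) = _
    rw [e.apply_symm_apply]
  have hβN : ∀ k l g, sN.s g (β k l) = β k l := by
    intro k l g
    apply e.injective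
    rw [hsN]
    exact Pool.Agent.TH213.SEL.fixed_of_ofGal ι hι s (hβ k l) g
  haveI : Fact (Nat.Prime 2) := ⟨Nat.prime_two⟩
  -- the prime 5
  obtain ⟨v, hv⟩ := Pool.Agent.Zk12.exists_v 5
  have hv6 : v.valuation ℚ 6 = 1 := by
    have := val_one hv (n := 6) (by decide)
    exact_mod_cast this
  have hvD : v.valuation ℚ ((30 : ℚ) ^ 5 * D / 30 ^ 5) = 1 := by
    rw [mul_div_cancel_left₀ _ (by norm_num)]
    exact val_one hv hD5
  have hD0 : (30 : ℚ) ^ 5 * D ≠ 0 := by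
    rw [hdD]
    exact mul_ne_zero (by exact_mod_cast hd.ne_zero) (pow_ne_zero 2 hr)
  have hxy' : algebraMap ℚ F ((30 : ℚ) ^ 5 * D) * (y / algebraMap ℚ F r) ^ 2 =
      x * (x - 6) * (x - 10) * (x - 15) * (x - 30) * (x + 30) := by
    have hrF : algebraMap ℚ F r ≠ 0 := (_root_.map_ne_zero _).2 hr
    rw [hdD, map_mul, map_pow, map_intCast, div_pow, mul_assoc, mul_div_cancel₀ _
      (pow_ne_zero 2 hrF), hxy, Fin.prod_univ_six]
    simp [ex]
  have hN : ∀ z ∈ geomPro 2 ℚ (IntermediateField.adjoin ℚ {x, y / algebraMap ℚ F r}) Ω,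
      z ∈ unramified F Ω U :=
    Pool.Agent.Y158.FQ.geomPro_unr' 2 x hx hF _
      (IntermediateField.subset_adjoin ℚ _ (by simp)) U hU
  have hbQ : ∀ k, ((ex k : ℤ) : ℚ) ∈ Pool.Agent.Zk12.BQ := fun k => (mem_BQ_iff _).2 ⟨k, rfl⟩
  have hbne : ∀ {k : Fin 6}, k ≠ i → ((ex k : ℤ) : ℚ) ≠ ex i := fun hk h =>
    hk (he (by exact_mod_cast h))
  -- the classes
  have hcls : ∀ k l, k ≠ i → l ≠ i → ∃ c m : ℤ, m ≠ 0 ∧
      S k l * ((ex i - ex k) * (ex i - ex l)) = c * m ^ 2 ∧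
      c ∈ ([1, -1, 2, -2, 3, -3, 6, -6] : List ℤ) ∧ IsSquare (c : ZMod p) := by
    intro k l hk hl
    have hE0 : (ex i - ex k) * (ex i - ex l) ≠ 0 := mul_ne_zero
      (sub_ne_zero.2 fun h => hk (he h.symm)) (sub_ne_zero.2 fun h => hl (he h.symm))
    refine cls hp h5 (hS0 k l) hE0 ?_ ?_ ?_ (hTI.1 k l hk hl).2
    · intro q hq hq5 h
      rcases (Nat.prime_iff_prime_int.1 hq).dvd_or_dvd h with h | h
      · exact ex_dif q hq hq5 i k (Ne.symm hk) h
      · exact ex_dif q hq hq5 i l (Ne.symm hl) h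
    · intro q hq hq5
      by_cases hqp : q = p
      · rw [hqp]; exact (hTI.1 k l hk hl).1
      · exact (hloc q hq hq5).1 (hqd q hq hq5 hqp) k l
    · refine even5 (mul_ne_zero (hS0 k l) hE0) hv ?_
      have h3 := gen_even (F := F) (Ω := Ω) (B := B) hD0 x _ hx hF hxy' (unramified F Ω U) hN sN hv6
        hvD (e := ex i) (l := ex k) (l' := ex l) (c := S k l) (hbQ i) (hbQ k) (hbQ l) (hbne hk)
        (hbne hl) (by exact_mod_cast hS0 k l) (h := β k l) (hβN k l) (by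
          apply Subtype.ext
          have h4 := hSβ k l
          change algebraMap ℚ Ω (S k l) * (β k l : Ω) ^ 2 = algebraMap F Ω _
          rw [h4, map_intCast, map_intCast])
      obtain ⟨t, ht⟩ := h3
      refine ⟨t, ?_⟩
      rw [← ht]
      congr 1
      push_cast
      ring
  choose! c m hm hcm hc8 hcsq using hcls
  have hconc := conc (i := i) (s := S) (c := c) (m := m) hchk hdd
    (fun k l hk hl => hres _ (hc8 k l hk hl) (hcsq k l hk hl)) hcm
    (loc2 pl2 ⟨algebraMap F M x, F_fixL s x⟩ ⟨algebraMap F M y, F_fixL s y⟩ hd.ne_zero S hS0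
      (fun k l => ⟨e (β k l), Pool.Agent.TH213.SEL.fixed_of_ofGal ι hι s (hβ k l)⟩)
      (fun k l => by
        apply Subtype.ext
        change algebraMap ℚ M (S k l) * (e (β k l)) ^ 2 = (algebraMap F M x - algebraMap ℚ M (ex k)) *
          (algebraMap F M x - algebraMap ℚ M (ex l))
        apply ι.injective
        change ι (algebraMap ℚ M (S k l) * (e (β k l)) ^ 2) =
          ι ((algebraMap F M x - algebraMap ℚ M (ex k)) * (algebraMap F M x - algebraMap ℚ M (ex l)))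
        have h1 := hSβ k l
        rw [map_intCast, map_mul, map_sub, map_sub, map_intCast, map_intCast] at h1
        rw [map_mul, map_pow, heι, map_mul, map_sub, map_sub, ι.commutes, map_intCast, map_intCast,
          map_intCast, map_intCast, map_intCast, map_intCast, h1])
      (by
        apply Subtype.ext
        have h1 := congrArg (algebraMap F M) hxy
        have h2 : ∀ k, algebraMap F M (x - (ex k : F)) = algebraMap F M x - algebraMap ℚ M (ex k) := by
          intro k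
          rw [map_sub, map_intCast, map_intCast]
        change algebraMap ℚ M d * (algebraMap F M y) ^ 2 = _
        rw [map_mul, map_pow, map_prod, map_intCast] at h1
        rw [map_intCast, h1]
        rw [Fin.prod_univ_six, Fin.prod_univ_six]
        simp only [h2]
        rfl))
  intro l l' hl hl'
  have h1 := hcm l l' hl hl'
  rw [hconc l l' hl hl', one_mul] at h1
  refine ⟨(m l l' : unramified F Ω U) * β l l', fun σ => ?_, ?_⟩
  · rw [map_mul, map_intCast, hβ]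
  · have h2 : (((m l l' : unramified F Ω U) * β l l' : unramified F Ω U) : Ω) =
        (m l l' : Ω) * (β l l' : Ω) := by
      push_cast
      rfl
    have h3 := hSβ l l'
    have h5 : ((S l l' * ((ex i - ex l) * (ex i - ex l')) : ℤ) : Ω) = ((m l l' ^ 2 : ℤ) : Ω) := by
      rw [h1]
    rw [h2, map_mul, ← h3, mul_pow, map_intCast, map_intCast]
    push_cast at h5 ⊢
    linear_combination (-(β l l' : Ω) ^ 2) * h5

end Pool.Agent.Zk94.PT
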