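import Mathlib
import Pool.Agent.Zk94.PT.At
import Pool.Agent.Zk12.TR.All

/-!
# Sections of the twists by primes: the two theorems
-/

set_option autoImplicit false
set_option linter.all false

open IsDedekindDomain NumberField Pool.Agent.W620.SC Pool.Agent.TH954

namespace Pool.Agent.Zk94.PT

open Pool.Agent.Y158.GR Pool.Agent.Zk12.TR Pool.Agent.Y157.PS Pool.Agent.Zk95.TD

attribute [-instance] DivisionRing.toRatAlgebra SubfieldClass.instSMulRat
attribute [local instance 1] DivisionRing.toRatAlgebra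

/-- all sections with a place over `ℚ₂` of the fixed field have a type -/
def HasType (d : ℤ) : Prop :=
  ∀ (F Ω M B : Type) [Field F] [Field Ω] [Field M] [Field B] [Algebra ℚ F] [Algebra F Ω]
    [Algebra ℚ Ω] [Algebra F M] [Algebra ℚ M] [Algebra ℚ B]
    [IsScalarTower ℚ F Ω] [IsScalarTower ℚ F M] [IsAlgClosed Ω] [Algebra.IsAlgebraic F Ω]
    [IsAlgClosure ℚ B] [Algebra.IsAlgebraic ℚ B] (x y : F) (U : Set (ValuationSubring F))
    (ι : M →ₐ[F] Ω)
    (hU : ∀ O ∈ U, ∀ c : ℚ, algebraMap ℚ F c ∈ O) (hι : ι.fieldRange = unramified F Ω U)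
    (hx : Transcendental ℚ x) (hF : Algebra.IsAlgebraic (IntermediateField.adjoin ℚ {x}) F)
    (hxy : (d : F) * y ^ 2 = ∏ i, (x - (ex i : F)))
    (s : GalSection ℚ F M B) (pl2 : Plc ℚ (fixL s) ℚ_[2]),
    ∃ i, Pool.Agent.W623.SecG.At (Pool.Agent.TH213.SEL.ofGal ι hι s) x ex i

/-- **sections of the fundamental group with a point over `ℚ₂`** -/
theorem rigidA {d : ℤ} (hd : d ≠ 0) (hT : HasType d)
    (F Ω M B C : Type) [Field F] [Field Ω] [Field M] [Field B] [Field C] [Algebra ℚ F] [Algebra F Ω]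
    [Algebra ℚ Ω] [Algebra F M] [Algebra ℚ M] [Algebra ℚ B] [Algebra ℚ C] [Algebra ℚ_[2] C]
    [IsScalarTower ℚ F Ω] [IsScalarTower ℚ F M] [IsAlgClosure F Ω] [IsAlgClosure ℚ B]
    [IsAlgClosure ℚ_[2] C] (x y : F) (U : Set (ValuationSubring F)) (ι : M →ₐ[F] Ω)
    (hU : ∀ O ∈ U, ∀ c : ℚ, algebraMap ℚ F c ∈ O) (hι : ι.fieldRange = unramified F Ω U)
    (hx : Transcendental ℚ x) (hF : Algebra.IsAlgebraic (IntermediateField.adjoin ℚ {x}) F)
    (hxy : (d : F) * y ^ 2 = ∏ i, (x - (ex i : F)))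
    (s : GalSection ℚ F M B) (p : Plc ℚ M C) (hp : s.GivenBy ℚ_[2] p) :
    ∃ i, p.val (algebraMap F M x) (algebraMap ℚ C (ex i)) ∧
      ∀ (g : B ≃ₐ[ℚ] B) (z : M), ι z ∈ ProTwo (algebraMap F Ω x) (algebraMap F Ω y) →
        (s.s g z ∈ p.W ↔ z ∈ p.W) := by
  classical
  have hM : S_MAIN := main_all
  have hcl : IsAlgClosed Ω := IsAlgClosure.isAlgClosed F
  have halg : Algebra.IsAlgebraic F Ω := IsAlgClosure.isAlgebraic
  have : Algebra.IsAlgebraic F M := Algebra.IsAlgebraic.of_injective ι ι.injective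
  have hBalg : Algebra.IsAlgebraic ℚ B := IsAlgClosure.isAlgebraic
  have : IsScalarTower ℚ ℚ_[2] C := IsScalarTower.of_algebraMap_eq' (Subsingleton.elim _ _)
  have hBc : CharZero B := charZero_of_injective_algebraMap (algebraMap ℚ B).injective
  have hBn : Normal ℚ B := IsAlgClosure.normal ℚ B
  set G : GSection ℚ F Ω U := Pool.Agent.TH213.SEL.ofGal ι hι s with hG
  obtain ⟨i, hi⟩ : ∃ i, Pool.Agent.W623.SecG.At G x ex i :=
    hT F Ω M B x y U ι hU hι hx hF hxy s (plcL hp)
  have he : Function.Injective ex := by decide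
  have hE : Function.Injective (fun k => (ex k : ℚ)) := by
    intro a b h
    have h' : (ex a : ℚ) = (ex b : ℚ) := h
    exact he (by exact_mod_cast h')
  obtain ⟨l, z, δ, hδ, hl, hAP⟩ := progressions_ex i
  have hpx : p.val (algebraMap F M x) (algebraMap ℚ C (ex i)) := by
    have h1 : p.val (algebraMap F M (x - algebraMap ℚ F (ex i))) 0 := by
      refine Pool.Agent.Zk12.two_val (F := F) (M := M) (B := B) (C := C) s
        (Pool.Agent.Zk12.rootN_unr U hU ι hι s.j) p hp hx (fun k => (ex k : ℚ)) i ?_ l hl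
        (fun j h => hl j (hE h)) z δ hδ hAP
      intro m m' h1 h2
      obtain ⟨γ, h3, h4⟩ := hi m m' h1 h2
      refine ⟨Pool.Agent.TH213.SEL.phi ι hι γ, Pool.Agent.TH213.SEL.fixed_of_ofGal ι hι s h3, ?_⟩
      apply ι.injective
      change ι (Pool.Agent.TH213.SEL.phi ι hι γ ^ 2) = ι (algebraMap F M _)
      rw [map_pow, Pool.Agent.TH213.SEL.e_phi, h4, ι.commutes]
      congr 1
      simp only [map_mul, map_sub, map_intCast]
      push_cast
      ring
    have h2 := h1.add (Plc.val_alg (pl := p) (ex i : ℚ))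
    have h3 : algebraMap F M (x - algebraMap ℚ F (ex i)) + algebraMap ℚ M (ex i) =
        algebraMap F M x := by
      rw [map_sub, ← IsScalarTower.algebraMap_apply]
      ring
    rwa [h3, zero_add] at h2
  refine ⟨i, hpx, ?_⟩
  -- the section of the subfield
  let e : unramified F Ω U ≃ₐ[F] M := Pool.Agent.TH213.SEL.phi ι hι
  have heι : ∀ z, ι (e z) = (z : Ω) := fun z => Pool.Agent.TH213.SEL.e_phi ι hι z
  have hesι : ∀ m, ((e.symm m : unramified F Ω U) : Ω) = ι m := fun m => rfl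
  let sN : GalSection ℚ F (unramified F Ω U) B :=
    { j := ((e.symm : M →ₐ[F] unramified F Ω U).restrictScalars ℚ).comp s.j
      s := e.symm.autCongr.toMonoidHom.comp s.s
      cont := (Pool.Agent.TH213.SEL.autCongr_cont e.symm).comp s.cont
      sec := by
        intro g b
        change e.symm (s.s g (e (e.symm (s.j b)))) = e.symm (s.j (g b))
        rw [e.apply_symm_apply, s.sec] }
  have hsN : ∀ g z, e (sN.s g z) = s.s g (e z) := by
    intro g z
    change e (e.symm (s.s g (e z))) = _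
    rw [e.apply_symm_apply]
  let i₀ : unramified F Ω U →+* M := (e : unramified F Ω U →+* M)
  have hi₀ : ∀ z, i₀ z = e z := fun z => rfl
  have hiK : ∀ c : ℚ, i₀ (algebraMap ℚ (unramified F Ω U) c) = algebraMap ℚ M c := by
    intro c
    rw [hi₀, IsScalarTower.algebraMap_apply ℚ F (unramified F Ω U), e.commutes,
      ← IsScalarTower.algebraMap_apply]
  have hpv : sN.GivenBy ℚ_[2] (resPlc i₀ hiK p) := by
    intro τ σ h w c hw
    rw [resPlc_val] at hw ⊢
    rw [hi₀, hsN]
    refine hp τ σ (fun z c' hz => ?_) _ _ hw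
    have h1 := h z c' (by
      rw [resPlc_val]
      change p.val (e (e.symm (s.j z))) c'
      rw [e.apply_symm_apply]
      exact hz)
    rw [resPlc_val] at h1
    change p.val (e (e.symm (s.j (σ z)))) (τ c') at h1
    rw [e.apply_symm_apply] at h1
    exact h1
  haveI : Fact (Nat.Prime 2) := ⟨Nat.prime_two⟩
  have hN : ∀ z ∈ geomPro 2 ℚ (IntermediateField.adjoin ℚ {x, y}) Ω, z ∈ unramified F Ω U :=
    Pool.Agent.Y158.FQ.geomPro_unr' 2 x hx hF _
      (IntermediateField.subset_adjoin ℚ _ (by simp)) U hU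
  have hfin := genT (F := F) (Ω := Ω) (B := B) (C := C) hM (d := (d : ℚ)) (by exact_mod_cast hd) x y
    hx hF (by
      rw [map_intCast, hxy, Fin.prod_univ_six]
      simp [ex]) (unramified F Ω U) hN sN (resPlc i₀ hiK p) hpv (ex i : ℚ)
    ((mem_BQ_iff _).2 ⟨i, rfl⟩) (by
      rw [resPlc_val, hi₀, e.commutes]
      exact hpx) (by
      intro l hl l' hl' hlq hlq' h hh σ
      obtain ⟨m, rfl⟩ := (mem_BQ_iff l).1 hl
      obtain ⟨m', rfl⟩ := (mem_BQ_iff l').1 hl'
      have hmi : m ≠ i := fun h => hlq (by rw [h])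
      have hmi' : m' ≠ i := fun h => hlq' (by rw [h])
      obtain ⟨γ, h3, h4⟩ := hi m m' hmi hmi'
      have h5 : h ^ 2 = γ ^ 2 := by
        apply Subtype.ext
        rw [hh]
        change algebraMap F Ω _ = (γ : Ω) ^ 2
        rw [h4]
        congr 1
        simp only [map_mul, map_sub, map_intCast]
        push_cast
        ring
      have h6 : sN.s σ γ = γ := by
        apply e.injective
        rw [hsN]
        exact Pool.Agent.TH213.SEL.fixed_of_ofGal ι hι s h3 σ
      rcases sq_eq_sq_iff_eq_or_eq_neg.1 h5 with h7 | h7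
      · rw [h7, h6]
      · rw [h7, map_neg, h6])
  intro g z hz
  have hz' : ((e.symm z : unramified F Ω U) : Ω) ∈
      geomPro 2 ℚ (IntermediateField.adjoin ℚ {x, y}) Ω := by
    rw [hesι]
    exact (Pool.Agent.Y158.FQ.geomPro_base (k := ℚ) (K := ℚ) (X := x) (Y := y) (c := 1) (c' := 1)
      (one_mem _) (one_mem _) one_ne_zero one_ne_zero (by rw [one_mul]) (by rw [one_mul]) (ι z)).2 hz
  have h3 := hfin g (e.symm z) hz'
  rw [resPlc_mem, resPlc_mem, hi₀, hi₀, hsN, e.apply_symm_apply] at h3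
  exact h3


end Pool.Agent.Zk94.PT
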