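import Mathlib
import Pool.Agent.Zk94.PT.MainA
import Pool.Agent.Zk95.BS.Final

/-!
# Sections of the twists by primes: birational sections
-/

set_option autoImplicit false
set_option linter.all false

open IsDedekindDomain NumberField Pool.Agent.W620.SC Pool.Agent.TH954

namespace Pool.Agent.Zk94.PT

open Pool.Agent.Y158.GR Pool.Agent.Zk12 Pool.Agent.Zk95.BS
open Pool.Agent.Zk95.TD (ex progressions_ex)

attribute [-instance] DivisionRing.toRatAlgebra SubfieldClass.instSMulRat
attribute [local instance 1] DivisionRing.toRatAlgebra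

/-- **birational sections** -/
theorem birB {d : ℤ} (hT : HasType d) : AllSections ex d := by
  classical
  intro F Ω B _ _ _ _ _ _ _ _ _ _ x y hx halgx hxy s
  have he : Function.Injective ex := by decide
  have hcl : IsAlgClosed Ω := IsAlgClosure.isAlgClosed F
  have halg : Algebra.IsAlgebraic F Ω := IsAlgClosure.isAlgebraic
  have hBalg : Algebra.IsAlgebraic ℚ B := IsAlgClosure.isAlgebraic
  have hBc : CharZero B := charZero_of_injective_algebraMap (algebraMap ℚ B).injective
  have hBn : Normal ℚ B := IsAlgClosure.normal ℚ B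
  have hcv : ∀ v : HeightOneSpectrum (𝓞 ℚ), CharZero (v.adicCompletion ℚ) := fun v =>
    charZero_of_injective_algebraMap (algebraMap ℚ (v.adicCompletion ℚ)).injective
  have hcL : CharZero (fixL s) := charZero_of_injective_algebraMap
    (algebraMap ℚ (fixL s)).injective
  have hloc := Pool.Agent.Zk49.locallyGeometric s
  choose pl hpl using fun v => hloc v
  have hp : ∀ v, s.GivenBy (v.adicCompletion ℚ) (pl v) := fun v => hpl v
  obtain ⟨i, hi⟩ : ∃ i, Pool.Agent.W623.SecG.At (Pool.Agent.TH213.SEL.ofGal (AlgHom.id F Ω)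
      Pool.Agent.TH213.SEL.id_range s) x ex i :=
    hT F Ω Ω B x y (∅ : Set (ValuationSubring F)) (AlgHom.id F Ω)
      (fun O hO => absurd hO (Set.notMem_empty _)) Pool.Agent.TH213.SEL.id_range hx halgx hxy s
      (mapPlc (fp ⟨2, Nat.prime_two⟩) (plcL (hp
        ((Rat.HeightOneSpectrum.primesEquiv (R := 𝓞 ℚ)).symm ⟨2, Nat.prime_two⟩))))
  have hE : Function.Injective (fun k : Fin 6 => (ex k : ℚ)) := by
    intro a b h
    have h' : (ex a : ℚ) = (ex b : ℚ) := h
    exact he (by exact_mod_cast h')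
  obtain ⟨l, z, δ, hδ, hl, hAP⟩ := progressions_ex i
  obtain ⟨O, hO1, hO2, hO3⟩ := bir_one Pool.Agent.Zk94.BS.ku2 s hx halgx (fun k => (ex k : ℚ)) i (by
      intro m m' h1 h2
      obtain ⟨γ, h3, h4⟩ := hi m m' h1 h2
      have h5 : Pool.Agent.TH213.SEL.phi (AlgHom.id F Ω) Pool.Agent.TH213.SEL.id_range γ =
        (γ : Ω) := Pool.Agent.TH213.SEL.e_phi (AlgHom.id F Ω) Pool.Agent.TH213.SEL.id_range γ
      refine ⟨Pool.Agent.TH213.SEL.phi (AlgHom.id F Ω) Pool.Agent.TH213.SEL.id_range γ,
        Pool.Agent.TH213.SEL.fixed_of_ofGal (AlgHom.id F Ω) Pool.Agent.TH213.SEL.id_range s h3, ?_⟩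
      rw [h5, h4]
      congr 1
      simp only [map_mul, map_sub, map_intCast]
      push_cast
      ring) l hl (fun j h => hl j (hE h)) z δ hδ hAP
  exact ⟨⟨O, hO2, fun O' h => hO3 O' h⟩, i, fun O' h => by rw [hO3 O' h]; exact hO1⟩

end Pool.Agent.Zk94.PT
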