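import Mathlib
import Pool.Agent.Zk94.PT.MainB

/-!
# The curves `D y² = u (u² - 1) (u² - 9)`
-/

set_option autoImplicit false
set_option linter.all false

open IsDedekindDomain NumberField Pool.Agent.W620.SC Pool.Agent.TH954

namespace Pool.Agent.Zk94.PT

open Pool.Agent.Y158.GR Pool.Agent.Y157.PS
open Pool.Agent.Zk95.TD (ex ProTwo)

section

variable {F : Type} [Field F] [Algebra ℚ F] {u y : F}

theorem u_ne (hu : Transcendental ℚ u) (c : ℚ) : u - algebraMap ℚ F c ≠ 0 := by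
  intro h
  apply hu
  rw [sub_eq_zero.1 h]
  exact isAlgebraic_algebraMap c

theorem u2_ne (hu : Transcendental ℚ u) : u + 2 ≠ 0 := by
  have h := u_ne hu (-2)
  rwa [map_neg, map_ofNat, sub_neg_eq_add] at h

theorem curve_eqn (hu : Transcendental ℚ u) {D d : ℤ} {r : ℚ} (hdD : (30 : ℚ) ^ 5 * D = d * r ^ 2)
    (h : (D : F) * y ^ 2 = u * (u ^ 2 - 1) * (u ^ 2 - 9)) :
    (d : F) * (algebraMap ℚ F r * y / (u + 2) ^ 3) ^ 2 = ∏ i, (30 / (u + 2) - (ex i : F)) := by
  have h2 := u2_ne hu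
  have h3 := congrArg (algebraMap ℚ F) hdD
  rw [map_mul, map_mul, map_pow, map_pow, map_ofNat, map_intCast, map_intCast] at h3
  rw [Fin.prod_univ_six]
  simp only [ex, Matrix.cons_val]
  push_cast
  field_simp
  linear_combination (-y ^ 2) * h3 + (30 : F) ^ 5 * h

theorem x_trans (hu : Transcendental ℚ u) : Transcendental ℚ (30 / (u + 2)) := by
  intro h
  apply hu
  have h2 := u2_ne hu
  have h4 : (30 : F) ≠ 0 := by
    haveI : CharZero F := charZero_of_injective_algebraMap (algebraMap ℚ F).injective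
    norm_num
  have h3 : u = 30 * (30 / (u + 2))⁻¹ - 2 := by
    field_simp
    ring
  rw [h3]
  have a30 : IsAlgebraic ℚ (30 : F) := by
    have := isAlgebraic_algebraMap (A := F) (30 : ℚ)
    rwa [map_ofNat] at this
  have a2 : IsAlgebraic ℚ (2 : F) := by
    have := isAlgebraic_algebraMap (A := F) (2 : ℚ)
    rwa [map_ofNat] at this
  exact (a30.mul h.inv).sub a2

theorem ofNat_mem' (K : IntermediateField ℚ F) (n : ℕ) [n.AtLeastTwo] :
    (OfNat.ofNat n : F) ∈ K := ofNat_mem K n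

theorem u_eq (hu : Transcendental ℚ u) : u = 30 / (30 / (u + 2)) - 2 := by
  have h2 := u2_ne hu
  haveI : CharZero F := charZero_of_injective_algebraMap (algebraMap ℚ F).injective
  have h4 : (30 : F) ≠ 0 := by norm_num
  field_simp
  ring

theorem adj_one (hu : Transcendental ℚ u) : IntermediateField.adjoin ℚ {30 / (u + 2)} =
    IntermediateField.adjoin ℚ {u} := by
  apply le_antisymm
  · rw [IntermediateField.adjoin_le_iff, Set.singleton_subset_iff]
    have h1 : u ∈ IntermediateField.adjoin ℚ {u} := IntermediateField.subset_adjoin ℚ _ rfl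
    exact div_mem (ofNat_mem' _ 30) (add_mem h1 (ofNat_mem' _ 2))
  · rw [IntermediateField.adjoin_le_iff, Set.singleton_subset_iff]
    have h1 : 30 / (u + 2) ∈ IntermediateField.adjoin ℚ {30 / (u + 2)} :=
      IntermediateField.subset_adjoin ℚ _ rfl
    have h2 := sub_mem (div_mem (ofNat_mem' (IntermediateField.adjoin ℚ {30 / (u + 2)}) 30) h1)
      (ofNat_mem' _ 2)
    rw [← u_eq hu] at h2
    exact h2

theorem adj_two (hu : Transcendental ℚ u) {r : ℚ} (hr : r ≠ 0) :
    IntermediateField.adjoin ℚ {30 / (u + 2), algebraMap ℚ F r * y / (u + 2) ^ 3} =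
    IntermediateField.adjoin ℚ {u, y} := by
  apply le_antisymm
  · rw [IntermediateField.adjoin_le_iff]
    have h1 : u ∈ IntermediateField.adjoin ℚ {u, y} :=
      IntermediateField.subset_adjoin ℚ _ (by simp)
    have h2 : y ∈ IntermediateField.adjoin ℚ {u, y} :=
      IntermediateField.subset_adjoin ℚ _ (by simp)
    rintro z (rfl | rfl)
    · exact div_mem (ofNat_mem' _ 30) (add_mem h1 (ofNat_mem' _ 2))
    · exact div_mem (mul_mem (IntermediateField.algebraMap_mem _ r) h2)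
        (pow_mem (add_mem h1 (ofNat_mem' _ 2)) 3)
  · rw [IntermediateField.adjoin_le_iff]
    obtain ⟨K, hK⟩ : ∃ K : IntermediateField ℚ F,
      K = IntermediateField.adjoin ℚ {30 / (u + 2), algebraMap ℚ F r * y / (u + 2) ^ 3} := ⟨_, rfl⟩
    rw [← hK]
    have h1 : 30 / (u + 2) ∈ K := by
      rw [hK]; exact IntermediateField.subset_adjoin ℚ _ (by simp)
    have h2 : algebraMap ℚ F r * y / (u + 2) ^ 3 ∈ K := by
      rw [hK]; exact IntermediateField.subset_adjoin ℚ _ (by simp)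
    have h3 : u ∈ K := by
      have := sub_mem (div_mem (ofNat_mem' K 30) h1) (ofNat_mem' K 2)
      rwa [← u_eq hu] at this
    have h4 : y = (algebraMap ℚ F r)⁻¹ * ((algebraMap ℚ F r * y / (u + 2) ^ 3) * (u + 2) ^ 3) := by
      have h5 := u2_ne hu
      have h6 : algebraMap ℚ F r ≠ 0 := (_root_.map_ne_zero _).2 hr
      field_simp
    rintro z (rfl | rfl)
    · exact h3
    · rw [h4]
      exact mul_mem (inv_mem (K.algebraMap_mem r)) (mul_mem h2 (pow_mem (add_mem h3
        (ofNat_mem' K 2)) 3))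

end

/-- the finite branch points -/
def fp5 : Fin 5 → ℤ := ![0, 1, -1, 3, -3]

/-- the `u`-coordinates of the points with `x = e_i`, `i ≠ 0` -/
theorem ex_u : ∀ i : Fin 6, i ≠ 0 → ∃ j : Fin 5, (30 : ℚ) / ex i = fp5 j + 2 := by
  intro i hi
  fin_cases i
  · exact absurd rfl hi
  · exact ⟨3, by change (30 : ℚ) / ((6 : ℤ) : ℚ) = ((3 : ℤ) : ℚ) + 2; norm_num⟩
  · exact ⟨1, by change (30 : ℚ) / ((10 : ℤ) : ℚ) = ((1 : ℤ) : ℚ) + 2; norm_num⟩
  · exact ⟨0, by change (30 : ℚ) / ((15 : ℤ) : ℚ) = ((0 : ℤ) : ℚ) + 2; norm_num⟩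
  · exact ⟨2, by change (30 : ℚ) / ((30 : ℤ) : ℚ) = ((-1 : ℤ) : ℚ) + 2; norm_num⟩
  · exact ⟨4, by change (30 : ℚ) / ((-30 : ℤ) : ℚ) = ((-3 : ℤ) : ℚ) + 2; norm_num⟩

theorem ex_ne0 : ∀ i : Fin 6, i ≠ 0 → (ex i : ℚ) ≠ 0 := by
  intro i hi
  have : ∀ i : Fin 6, i ≠ 0 → ex i ≠ 0 := by decide
  exact_mod_cast this i hi

/-- the values of `u` -/
theorem val_u {F M C : Type} [Field F] [Field M] [Field C] [Algebra ℚ F] [Algebra F M] [Algebra ℚ M]
    [Algebra ℚ C] [IsScalarTower ℚ F M] {u : F} (hu : Transcendental ℚ u) (p : Plc ℚ M C) {i : Fin 6}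
    (h : p.val (algebraMap F M (30 / (u + 2))) (algebraMap ℚ C (ex i))) :
    p.val (algebraMap F M u)⁻¹ 0 ∨ ∃ j : Fin 5, p.val (algebraMap F M u) (algebraMap ℚ C (fp5 j)) := by
  have h2 := u2_ne hu
  have hX : algebraMap F M u + 2 ≠ 0 := by
    have := (_root_.map_ne_zero (algebraMap F M)).2 h2
    rwa [map_add, map_ofNat] at this
  have h3 : algebraMap F M (30 / (u + 2)) = 30 / (algebraMap F M u + 2) := by
    rw [map_div₀, map_add, map_ofNat, map_ofNat]
  rw [h3] at h
  haveI : CharZero M := charZero_of_injective_algebraMap (algebraMap ℚ M).injective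
  haveI : CharZero C := charZero_of_injective_algebraMap (algebraMap ℚ C).injective
  have h30 : (30 : M) ≠ 0 := by norm_num
  have hv : ∀ q : ℚ, p.val (algebraMap ℚ M q) (algebraMap ℚ C q) := fun q => Plc.val_alg q
  set X : M := 30 / (algebraMap F M u + 2) with hXd
  have hX0 : X ≠ 0 := div_ne_zero h30 hX
  by_cases hi : i = 0
  · left
    rw [hi] at h
    have e0 : algebraMap ℚ C (ex 0) = 0 := by simp [ex]
    rw [e0] at h
    -- `u⁻¹ = X / (30 - 2 X)`
    have h4 := (hv 30).sub ((hv 2).mul h)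
    rw [mul_zero, sub_zero] at h4
    have h5 := h4.inv ((_root_.map_ne_zero _).2 (by norm_num))
    have h6 := h.mul h5
    rw [zero_mul] at h6
    have h7 : X * (algebraMap ℚ M 30 - algebraMap ℚ M 2 * X)⁻¹ = (algebraMap F M u)⁻¹ := by
      rw [map_ofNat, map_ofNat]
      have hu0 : algebraMap F M u ≠ 0 := by
        apply (_root_.map_ne_zero _).2
        have := u_ne hu 0
        rwa [map_zero, sub_zero] at this
      have h8 : (30 : M) - 2 * X = X * algebraMap F M u := by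
        rw [hXd]
        field_simp
        ring
      rw [h8, mul_inv, ← mul_assoc, mul_inv_cancel₀ hX0, one_mul]
    rwa [h7] at h6
  · right
    obtain ⟨j, hj⟩ := ex_u i hi
    refine ⟨j, ?_⟩
    have h4 := h.inv ((_root_.map_ne_zero _).2 (ex_ne0 i hi))
    have h5 := ((hv 30).mul h4).sub (hv 2)
    have h6 : algebraMap ℚ M 30 * X⁻¹ - algebraMap ℚ M 2 = algebraMap F M u := by
      rw [map_ofNat, map_ofNat, hXd]
      field_simp
      ring
    have h7 : algebraMap ℚ C 30 * (algebraMap ℚ C (ex i))⁻¹ - algebraMap ℚ C 2 =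
        algebraMap ℚ C (fp5 j) := by
      rw [← map_inv₀, ← map_mul, ← map_sub]
      congr 1
      rw [← div_eq_mul_inv, hj]
      ring
    rwa [h6, h7] at h5

/-- the values of `u` at a valuation ring -/
theorem val_O {F : Type} [Field F] [Algebra ℚ F] {u : F} (hu : Transcendental ℚ u)
    {O : ValuationSubring F} (hO : ∀ c : ℚ, algebraMap ℚ F c ∈ O) {i : Fin 6}
    (h : (30 / (u + 2) - algebraMap ℚ F (ex i))⁻¹ ∉ O) :
    u ∉ O ∨ ∃ j : Fin 5, (u - algebraMap ℚ F (fp5 j))⁻¹ ∉ O := by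
  have h2 := u2_ne hu
  haveI : CharZero F := charZero_of_injective_algebraMap (algebraMap ℚ F).injective
  by_cases hi : i = 0
  · left
    intro hu'
    apply h
    have e0 : algebraMap ℚ F (ex i) = 0 := by rw [hi]; simp [ex]
    rw [e0, sub_zero, inv_div, div_eq_mul_inv]
    have h3 : (30 : F)⁻¹ = algebraMap ℚ F 30⁻¹ := by rw [map_inv₀, map_ofNat]
    have h4 : (2 : F) = algebraMap ℚ F 2 := by rw [map_ofNat]
    rw [h3, h4]
    exact mul_mem (add_mem hu' (hO _)) (hO _)
  · right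
    obtain ⟨j, hj⟩ := ex_u i hi
    refine ⟨j, fun hj' => h ?_⟩
    have h5 := u_ne hu (fp5 j)
    have he := ex_ne0 i hi
    have h6 : algebraMap ℚ F (ex i) ≠ 0 := (_root_.map_ne_zero _).2 he
    have h7 : algebraMap ℚ F (fp5 j) + 2 = 30 / algebraMap ℚ F (ex i) := by
      have := congrArg (algebraMap ℚ F) hj
      rw [map_div₀, map_ofNat, map_add, map_ofNat] at this
      exact this.symm
    obtain ⟨w, hw⟩ : ∃ w, w = algebraMap ℚ F (fp5 j) := ⟨_, rfl⟩
    obtain ⟨e, he'⟩ : ∃ e, e = algebraMap ℚ F (ex i) := ⟨_, rfl⟩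
    rw [← hw, ← he'] at h7
    rw [← hw] at h5 hj'
    rw [← he'] at h6 ⊢
    have h30 : (30 : F) ≠ 0 := by norm_num
    have hw2 : w = 30 / e - 2 := by linear_combination h7
    have h8 : 30 / (u + 2) - e = - e * (u - w) / (u + 2) := by
      rw [hw2]
      field_simp
      ring
    have h9 : (30 / (u + 2) - e)⁻¹ = -(e⁻¹) * (1 + (w + 2) * (u - w)⁻¹) := by
      rw [h8]
      field_simp
      ring
    rw [h9, he', hw]
    have h4 : (2 : F) = algebraMap ℚ F 2 := by rw [map_ofNat]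
    rw [h4, ← map_inv₀, ← map_neg]
    rw [hw] at hj'
    exact mul_mem (hO _) (add_mem (one_mem _) (mul_mem (add_mem (hO _) (hO _)) hj'))

end Pool.Agent.Zk94.PT
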