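import Mathlib
import Pool.Agent.Zk94.PT.Crv

/-!
# The twists by primes: the end
-/

set_option autoImplicit false
set_option linter.all false

open IsDedekindDomain NumberField Pool.Agent.W620.SC Pool.Agent.TH954

namespace Pool.Agent.Zk94.PT

open Pool.Agent.Y158.GR Pool.Agent.Y157.PS
open Pool.Agent.Zk95.TD (ex ProTwo)

theorem not_dvd_30 {q : ℕ} (hq : q.Prime) (h5 : 5 < q) : ¬ q ∣ 30 := by
  intro h
  have h1 : q ∣ 2 * 3 * 5 := by simpa using h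
  rcases hq.dvd_mul.1 h1 with h2 | h2
  · rcases hq.dvd_mul.1 h2 with h3 | h3
    · have := (Nat.prime_dvd_prime_iff_eq hq Nat.prime_two).1 h3; omega
    · have := (Nat.prime_dvd_prime_iff_eq hq Nat.prime_three).1 h3; omega
  · have := (Nat.prime_dvd_prime_iff_eq hq Nat.prime_five).1 h2; omega

theorem hasType_of {p : ℕ} (hp : p.Prime) (h5 : 5 < p) {n : ℕ} (hn : n ∣ 30) {D : ℤ}
    (hD5 : ¬ (5 : ℤ) ∣ D) {r : ℚ} (hr : r ≠ 0) (hdD : (30 : ℚ) ^ 5 * D = ((n * p : ℕ) : ℤ) * r ^ 2)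
    {cs : List ℤ} {dd : ℤ} (hchk : Chk cs dd)
    (hdd : ∃ u : ℚ_[2], (dd : ℚ_[2]) * (((n * p : ℕ) : ℤ) : ℚ_[2]) = u ^ 2)
    (hres : ∀ c ∈ ([1, -1, 2, -2, 3, -3, 6, -6] : List ℤ), IsSquare (c : ZMod p) → c ∈ cs) :
    HasType ((n * p : ℕ) : ℤ) := by
  have hcop : Nat.Coprime n p := by
    rw [Nat.coprime_comm, hp.coprime_iff_not_dvd]
    exact fun h => not_dvd_30 hp h5 (h.trans hn)
  have h30 : Squarefree (30 : ℕ) := by decide +kernel
  have hsq : Squarefree ((n * p : ℕ) : ℤ) := by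
    rw [Int.squarefree_natCast, Nat.squarefree_mul hcop]
    exact ⟨h30.squarefree_of_dvd hn, hp.prime.squarefree⟩
  have hpd : (p : ℤ) ∣ ((n * p : ℕ) : ℤ) := Int.natCast_dvd_natCast.2 (dvd_mul_left _ _)
  have hqd : ∀ q : ℕ, q.Prime → 5 < q → q ≠ p → ¬ (q : ℤ) ∣ ((n * p : ℕ) : ℤ) := by
    intro q hq hq5 hqp h
    have h1 := Int.natCast_dvd_natCast.1 h
    rcases hq.dvd_mul.1 h1 with h2 | h2
    · exact not_dvd_30 hq hq5 (h2.trans hn)
    · exact hqp ((Nat.prime_dvd_prime_iff_eq hq hp).1 h2)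
  intro F Ω M B _ _ _ _ _ _ _ _ _ _ _ _ _ _ _ _ x y U ι hU hι hx hF hxy s pl2
  exact at_ex hp h5 hsq hpd hqd hD5 hr hdD hchk hdd hres F Ω M B x y U ι hU hι hx hF hxy s pl2

theorem type5 {p : ℕ} (hp : p.Prime) (h : p % 24 = 5) (h5 : p ≠ 5) : HasType ((30 * p : ℕ) : ℤ) := by
  haveI : Fact p.Prime := ⟨hp⟩
  have h5' : 5 < p := by omega
  refine hasType_of hp h5' (n := 30) (dvd_refl _) (D := p) ?_ (r := 900) (by norm_num) ?_ chk5 ?_
    (fun c hc hsq => res5 h5' h hc hsq)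
  · intro h1
    have h2 : 5 ∣ p := by exact_mod_cast h1
    have := (Nat.prime_dvd_prime_iff_eq Nat.prime_five hp).1 h2
    omega
  · push_cast; ring
  · obtain ⟨u, hu⟩ := sq8 (n := 5 * p) (by omega)
    refine ⟨30 * u, ?_⟩
    push_cast at hu ⊢
    linear_combination 900 * hu

theorem type11 {p : ℕ} (hp : p.Prime) (h : p % 24 = 11) : HasType ((30 * p : ℕ) : ℤ) := by
  haveI : Fact p.Prime := ⟨hp⟩
  have h5' : 5 < p := by omega
  refine hasType_of hp h5' (n := 30) (dvd_refl _) (D := p) ?_ (r := 900) (by norm_num) ?_ chk11 ?_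
    (fun c hc hsq => res11 h5' h hc hsq)
  · intro h1
    have h2 : 5 ∣ p := by exact_mod_cast h1
    have := (Nat.prime_dvd_prime_iff_eq Nat.prime_five hp).1 h2
    omega
  · push_cast; ring
  · obtain ⟨u, hu⟩ := sq8 (n := 3 * p) (by omega)
    refine ⟨30 * u, ?_⟩
    push_cast at hu ⊢
    linear_combination 900 * hu

theorem type7 {p : ℕ} (hp : p.Prime) (h : p % 24 = 7) : HasType ((15 * p : ℕ) : ℤ) := by
  haveI : Fact p.Prime := ⟨hp⟩
  have h5' : 5 < p := by omega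
  refine hasType_of hp h5' (n := 15) (by norm_num) (D := 2 * p) ?_ (r := 1800) (by norm_num) ?_ chk7 ?_
    (fun c hc hsq => res7 h5' h hc hsq)
  · intro h1
    have h2 : 5 ∣ 2 * p := by exact_mod_cast h1
    rcases Nat.prime_five.dvd_mul.1 h2 with h3 | h3
    · omega
    · have := (Nat.prime_dvd_prime_iff_eq Nat.prime_five hp).1 h3
      omega
  · push_cast; ring
  · obtain ⟨u, hu⟩ := sq8 (n := 7 * p) (by omega)
    refine ⟨15 * u, ?_⟩
    push_cast at hu ⊢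
    linear_combination 225 * hu

theorem type19 {p : ℕ} (hp : p.Prime) (h : p % 24 = 19) : HasType ((15 * p : ℕ) : ℤ) := by
  haveI : Fact p.Prime := ⟨hp⟩
  have h5' : 5 < p := by omega
  refine hasType_of hp h5' (n := 15) (by norm_num) (D := 2 * p) ?_ (r := 1800) (by norm_num) ?_ chk19 ?_
    (fun c hc hsq => res19 h5' h hc hsq)
  · intro h1
    have h2 : 5 ∣ 2 * p := by exact_mod_cast h1
    rcases Nat.prime_five.dvd_mul.1 h2 with h3 | h3
    · omega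
    · have := (Nat.prime_dvd_prime_iff_eq Nat.prime_five hp).1 h3
      omega
  · push_cast; ring
  · obtain ⟨u, hu⟩ := sq8 (n := 3 * p) (by omega)
    refine ⟨15 * u, ?_⟩
    push_cast at hu ⊢
    linear_combination 225 * hu

/-- part (a) in the coordinate `u` -/
theorem partA {d D : ℤ} (hd : d ≠ 0) {r : ℚ} (hr : r ≠ 0) (hdD : (30 : ℚ) ^ 5 * D = d * r ^ 2)
    (hT : HasType d)
    (F Ω M B C : Type) [Field F] [Field Ω] [Field M] [Field B] [Field C] [Algebra ℚ F] [Algebra F Ω]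
    [Algebra ℚ Ω] [Algebra F M] [Algebra ℚ M] [Algebra ℚ B] [Algebra ℚ C] [Algebra ℚ_[2] C]
    [IsScalarTower ℚ F Ω] [IsScalarTower ℚ F M] [IsAlgClosure F Ω] [IsAlgClosure ℚ B]
    [IsAlgClosure ℚ_[2] C] (u y : F) (U : Set (ValuationSubring F)) (ι : M →ₐ[F] Ω)
    (hU : ∀ O ∈ U, ∀ c : ℚ, algebraMap ℚ F c ∈ O) (hι : ι.fieldRange = unramified F Ω U)
    (hu : Transcendental ℚ u) (hF : Algebra.IsAlgebraic (IntermediateField.adjoin ℚ {u}) F)
    (huy : (D : F) * y ^ 2 = u * (u ^ 2 - 1) * (u ^ 2 - 9))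
    (s : GalSection ℚ F M B) (p : Plc ℚ M C) (hp : s.GivenBy ℚ_[2] p) :
    (p.val (algebraMap F M u)⁻¹ 0 ∨
        ∃ j : Fin 5, p.val (algebraMap F M u) (algebraMap ℚ C (fp5 j))) ∧
      ∀ (g : B ≃ₐ[ℚ] B) (z : M), ι z ∈ ProTwo (algebraMap F Ω u) (algebraMap F Ω y) →
        (s.s g z ∈ p.W ↔ z ∈ p.W) := by
  have huΩ : Transcendental ℚ (algebraMap F Ω u) :=
    (transcendental_algebraMap_iff (algebraMap F Ω).injective).2 hu
  obtain ⟨i, h1, h2⟩ := rigidA hd hT F Ω M B C (30 / (u + 2)) (algebraMap ℚ F r * y / (u + 2) ^ 3)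
    U ι hU hι (x_trans hu) (by rw [adj_one hu]; exact hF) (curve_eqn hu hdD huy) s p hp
  refine ⟨val_u hu p h1, fun g z hz => h2 g z ?_⟩
  have e1 : algebraMap F Ω (30 / (u + 2)) = 30 / (algebraMap F Ω u + 2) := by
    rw [map_div₀, map_add, map_ofNat, map_ofNat]
  have e2 : algebraMap F Ω (algebraMap ℚ F r * y / (u + 2) ^ 3) =
      algebraMap ℚ Ω r * algebraMap F Ω y / (algebraMap F Ω u + 2) ^ 3 := by
    rw [map_div₀, map_mul, map_pow, map_add, map_ofNat, ← IsScalarTower.algebraMap_apply]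
  unfold ProTwo at hz ⊢
  rw [e1, e2, adj_two huΩ hr]
  exact hz

/-- part (b) in the coordinate `u` -/
theorem partB {d D : ℤ} {r : ℚ} (hdD : (30 : ℚ) ^ 5 * D = d * r ^ 2) (hT : HasType d)
    (F Ω B : Type) [Field F] [Field Ω] [Field B] [Algebra ℚ F] [Algebra F Ω] [Algebra ℚ Ω]
    [Algebra ℚ B] [IsScalarTower ℚ F Ω] [IsAlgClosure F Ω] [IsAlgClosure ℚ B] (u y : F)
    (hu : Transcendental ℚ u) (hF : Algebra.IsAlgebraic (IntermediateField.adjoin ℚ {u}) F)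
    (huy : (D : F) * y ^ 2 = u * (u ^ 2 - 1) * (u ^ 2 - 9)) (s : GalSection ℚ F Ω B) :
    (∃! O : ValuationSubring F, s.ArisesFrom O) ∧
      ∀ O : ValuationSubring F, s.ArisesFrom O →
        u ∉ O ∨ ∃ j : Fin 5, (u - algebraMap ℚ F (fp5 j))⁻¹ ∉ O := by
  obtain ⟨h1, i, h2⟩ := birB hT F Ω B (30 / (u + 2)) (algebraMap ℚ F r * y / (u + 2) ^ 3)
    (x_trans hu) (by rw [adj_one hu]; exact hF) (curve_eqn hu hdD huy) s
  exact ⟨h1, fun O hO => val_O hu hO.2.1 (h2 O hO)⟩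

end Pool.Agent.Zk94.PT
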